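import Pool.Agent.H79.PB.Sect
import Pool.Agent.H79.Par.GDefs

/-!
# Compact sets of good directions in a complex line

`K`: a compact set of complex numbers (of modulus one in the applications), `e • v` is a good direction for all
`e ∈ K`. For complex `t` near `0` with `t / |t| ∈ K` the map `v0 + t • v` is good, uniformly.
-/

set_option autoImplicit false

open Filter Topology Polynomial Metric Set

namespace Pool.Agent.H79.PB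

open Pool.Agent.H44.Fatou Pool.Agent.H32.BT Pool.Agent.H79.Eul Pool.Agent.H79.Par

/-- a property which holds near `flt (e • v)` holds at the maps `v0 + t • v`, `t / |t|` near `e` -/
theorem flt_cplx {d : ℕ} {v0 v : E d} {e : ℂ} {R : E d → ℝ → Prop}
    (h : ∀ᶠ τ in flt (e • v), R (pv v0 τ) τ.2) :
    ∃ S ∈ 𝓝 e, ∃ η : ℝ, 0 < η ∧ ∀ t : ℂ, 0 < ‖t‖ → ‖t‖ < η → t / (‖t‖ : ℂ) ∈ S →
      R (v0 + t • v) ‖t‖ := by
  obtain ⟨pa, hpa, pb, hpb, hab⟩ := Filter.eventually_prod_iff.1 h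
  have hb : ∃ η : ℝ, 0 < η ∧ ∀ s : ℝ, 0 < s → s < η → pb s := by
    rw [eventually_nhdsWithin_iff] at hpb
    obtain ⟨η, hη, hb⟩ := Metric.eventually_nhds_iff_ball.1 hpb
    refine ⟨η, hη, fun s hs hs2 => hb s ?_ hs⟩
    rw [mem_ball, dist_zero_right, Real.norm_of_nonneg hs.le]
    exact hs2
  obtain ⟨η, hη, hb⟩ := hb
  have hc : Continuous (fun e' : ℂ => e' • v) := by fun_prop
  refine ⟨{e' : ℂ | pa (e' • v)}, (hc.tendsto e).eventually hpa, η, hη, fun t ht ht2 hS => ?_⟩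
  have h1 := hab hS (hb ‖t‖ ht ht2)
  have h2 : pv v0 ((t / (‖t‖ : ℂ)) • v, ‖t‖) = v0 + t • v := by
    unfold pv
    have h3 : ‖t‖ • (t / (‖t‖ : ℂ)) • v = (‖t‖ : ℂ) • (t / (‖t‖ : ℂ)) • v :=
      (Complex.coe_smul _ _).symm
    have h4 : (‖t‖ : ℂ) ≠ 0 := by exact_mod_cast ht.ne'
    show v0 + ‖t‖ • (t / (‖t‖ : ℂ)) • v = _
    rw [h3, smul_smul, mul_div_cancel₀ _ h4]
  rw [h2] at h1
  exact h1

/-- the sector condition, uniformly on a compact set of directions -/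
theorem sect_cpt {d : ℕ} {v0 v : E d} {p a : ℂ} {q : ℕ} {K : Set ℂ} (hK : IsCompact K)
    (h : ∀ e ∈ K, SectDir v0 p a q (e • v)) {ε : ℝ} (hε : 0 < ε) :
    ∃ r0 K0 η : ℝ, 0 < r0 ∧ 0 < K0 ∧ 0 < η ∧ ∀ t : ℂ, 0 < ‖t‖ → ‖t‖ < η →
      t / (‖t‖ : ℂ) ∈ K → ∀ y : ℂ, K0 * ‖t‖ ^ (((q + 1 : ℕ) : ℝ)⁻¹) ≤ ‖y‖ → ‖y‖ ≤ r0 →
        (a * y ^ q).re ≤ (1 - ε) * ‖a * y ^ q‖ →
          Att (Rf (v0 + t • v)) ((p + y : ℂ) : OnePoint ℂ) := by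
  refine hK.induction_on (p := fun S : Set ℂ => ∃ r0 K0 η : ℝ, 0 < r0 ∧ 0 < K0 ∧ 0 < η ∧
    ∀ t : ℂ, 0 < ‖t‖ → ‖t‖ < η →
      t / (‖t‖ : ℂ) ∈ S → ∀ y : ℂ, K0 * ‖t‖ ^ (((q + 1 : ℕ) : ℝ)⁻¹) ≤ ‖y‖ → ‖y‖ ≤ r0 →
        (a * y ^ q).re ≤ (1 - ε) * ‖a * y ^ q‖ →
          Att (Rf (v0 + t • v)) ((p + y : ℂ) : OnePoint ℂ)) ?_ ?_ ?_ ?_
  · exact ⟨1, 1, 1, one_pos, one_pos, one_pos, fun t _ _ h => absurd h (notMem_empty _)⟩
  · rintro s t hst ⟨r0, K0, η, h1, h2, h3, h4⟩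
    exact ⟨r0, K0, η, h1, h2, h3, fun t' h5 h6 h7 => h4 t' h5 h6 (hst h7)⟩
  · rintro s t ⟨r0, K0, η, h1, h2, h3, h4⟩ ⟨r0', K0', η', h1', h2', h3', h4'⟩
    refine ⟨min r0 r0', max K0 K0', min η η', lt_min h1 h1', lt_max_of_lt_left h2,
      lt_min h3 h3', fun t' h5 h6 h7 y h8 h9 h10 => ?_⟩
    have h11 : (0 : ℝ) ≤ ‖t'‖ ^ (((q + 1 : ℕ) : ℝ)⁻¹) := by positivity
    rcases h7 with h7 | h7
    · exact h4 t' h5 (lt_of_lt_of_le h6 (min_le_left _ _)) h7 y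
        ((mul_le_mul_of_nonneg_right (le_max_left _ _) h11).trans h8)
        (h9.trans (min_le_left _ _)) h10
    · exact h4' t' h5 (lt_of_lt_of_le h6 (min_le_right _ _)) h7 y
        ((mul_le_mul_of_nonneg_right (le_max_right _ _) h11).trans h8)
        (h9.trans (min_le_right _ _)) h10
  · intro e he
    obtain ⟨r0, K0, hr0, hK0, hev⟩ := h e he ε hε
    obtain ⟨S, hS, η, hη, h1⟩ := flt_cplx (v0 := v0) (v := v) (e := e)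
      (R := fun w s => ∀ y : ℂ, K0 * s ^ (((q + 1 : ℕ) : ℝ)⁻¹) ≤ ‖y‖ → ‖y‖ ≤ r0 →
        (a * y ^ q).re ≤ (1 - ε) * ‖a * y ^ q‖ → Att (Rf w) ((p + y : ℂ) : OnePoint ℂ)) hev
    exact ⟨S, mem_nhdsWithin_of_mem_nhds hS, r0, K0, η, hr0, hK0, hη,
      fun t h2 h3 h4 => h1 t h2 h3 h4⟩

/-- the points of the basins, uniformly on a compact set of directions -/
theorem rob_cpt {d : ℕ} {v0 v : E d} {K : Set ℂ} (hK : IsCompact K)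
    (h : ∀ e ∈ K, RobDir v0 (e • v)) {z : ℂ} (hz : Basin v0 z) :
    ∃ η : ℝ, 0 < η ∧ ∀ t : ℂ, 0 < ‖t‖ → ‖t‖ < η → t / (‖t‖ : ℂ) ∈ K → ∀ y ∈ ball z η,
      Att (Rf (v0 + t • v)) (y : OnePoint ℂ) := by
  refine hK.induction_on (p := fun S : Set ℂ => ∃ η : ℝ, 0 < η ∧ ∀ t : ℂ, 0 < ‖t‖ → ‖t‖ < η →
    t / (‖t‖ : ℂ) ∈ S → ∀ y ∈ ball z η, Att (Rf (v0 + t • v)) (y : OnePoint ℂ)) ?_ ?_ ?_ ?_
  · exact ⟨1, one_pos, fun t _ _ h => absurd h (notMem_empty _)⟩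
  · rintro s t hst ⟨η, h3, h4⟩
    exact ⟨η, h3, fun t' h5 h6 h7 => h4 t' h5 h6 (hst h7)⟩
  · rintro s t ⟨η, h3, h4⟩ ⟨η', h3', h4'⟩
    refine ⟨min η η', lt_min h3 h3', fun t' h5 h6 h7 y h8 => ?_⟩
    rcases h7 with h7 | h7
    · exact h4 t' h5 (lt_of_lt_of_le h6 (min_le_left _ _)) h7 y
        (ball_subset_ball (min_le_left _ _) h8)
    · exact h4' t' h5 (lt_of_lt_of_le h6 (min_le_right _ _)) h7 y
        (ball_subset_ball (min_le_right _ _) h8)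
  · intro e he
    have h1 := h e he z hz
    obtain ⟨pa, hpa, pb, hpb, hab⟩ := Filter.eventually_prod_iff.1 h1
    obtain ⟨r, hr, hb⟩ := Metric.eventually_nhds_iff_ball.1 hpb
    have h2 : ∀ᶠ τ in flt (e • v), ∀ y ∈ ball z r, Att (Rf (pv v0 τ)) (y : OnePoint ℂ) := by
      filter_upwards [hpa] with τ hτ y hy
      exact hab hτ (hb y hy)
    obtain ⟨S, hS, η, hη, h3⟩ := flt_cplx (v0 := v0) (v := v) (e := e)
      (R := fun w _ => ∀ y ∈ ball z r, Att (Rf w) (y : OnePoint ℂ)) h2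
    exact ⟨S, mem_nhdsWithin_of_mem_nhds hS, min η r, lt_min hη hr, fun t h4 h5 h6 y hy =>
      h3 t h4 (lt_of_lt_of_le h5 (min_le_left _ _)) h6 y (ball_subset_ball (min_le_right _ _) hy)⟩

end Pool.Agent.H79.PB
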