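import Pool.Agent.H79.PB.GermSect
import Pool.Agent.H79.Par.BasinRe

/-!
# Local dynamics at a parabolic point

`F` has the normal form `NF F k N a`. `cone_basin`: the points outside the cones of the repelling directions converge
to `0` without landing. `cone_der`, `cone_low`: inside the cones `F` expands. `der_up`, `val_up`, `der_lip`: upper
bounds without the cone condition.
-/

set_option autoImplicit false

open Filter Topology Polynomial Metric Set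

namespace Pool.Agent.H79.PB

open Pool.Agent.H44.Fatou Pool.Agent.H32.BT Pool.Agent.H79.Eul Pool.Agent.H79.Par

/-- the cone condition is preserved by moving to the right -/
theorem cone_right {z : ℂ} {ε s : ℝ} (hε1 : ε ≤ 1) (hs : 0 ≤ s)
    (hz : -(1 - ε) * ‖z‖ ≤ z.re) : -(1 - ε) * ‖z + s‖ ≤ (z + s).re := by
  have hre : (z + (s : ℂ)).re = z.re + s := by simp
  have him : (z + (s : ℂ)).im = z.im := by simp
  have h0 : (0 : ℝ) ≤ 1 - ε := by linarith
  rcases le_or_gt 0 (z.re + s) with h | h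
  · rw [hre]
    have := mul_nonneg h0 (norm_nonneg (z + (s : ℂ)))
    linarith
  · -- `0 < -(z.re + s) ≤ -z.re`
    rw [hre]
    have h1 : ‖z‖ ^ 2 = z.re ^ 2 + z.im ^ 2 := by
      rw [← Complex.normSq_eq_norm_sq, Complex.normSq_apply]; ring
    have h2 : ‖z + (s : ℂ)‖ ^ 2 = (z.re + s) ^ 2 + z.im ^ 2 := by
      rw [← Complex.normSq_eq_norm_sq, Complex.normSq_apply, hre, him]; ring
    have hx : 0 < -z.re := by linarith
    have h3 : (-z.re) ^ 2 ≤ ((1 - ε) * ‖z‖) ^ 2 :=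
      pow_le_pow_left₀ hx.le (by linarith) 2
    have h4 : (-(z.re + s)) ^ 2 ≤ ((1 - ε) * ‖z + (s : ℂ)‖) ^ 2 := by
      rw [mul_pow, h2]
      rw [mul_pow, h1] at h3
      have h5 : (z.re + s) ^ 2 ≤ z.re ^ 2 := by nlinarith
      have h6 : (1 - ε) ^ 2 ≤ 1 ∨ 1 ≤ (1 - ε) ^ 2 := le_total _ _
      have h7 : z.re ^ 2 * (1 - (1 - ε) ^ 2) ≤ (1 - ε) ^ 2 * z.im ^ 2 := by nlinarith
      rcases h6 with h6 | h6
      · have h8 : (z.re + s) ^ 2 * (1 - (1 - ε) ^ 2) ≤ z.re ^ 2 * (1 - (1 - ε) ^ 2) :=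
          mul_le_mul_of_nonneg_right h5 (by linarith)
        nlinarith
      · have h8 : 0 ≤ (z.re + s) ^ 2 := sq_nonneg _
        have h9 : 0 ≤ z.im ^ 2 := sq_nonneg _
        nlinarith
    have h5 := (pow_le_pow_iff_left₀ (by linarith)
      (mul_nonneg h0 (norm_nonneg _)) (by norm_num : (2 : ℕ) ≠ 0)).1 h4
    linarith

/-- outside the cones of the repelling directions all points converge to `0` without landing -/
theorem cone_basin {F k : ℂ → ℂ} {N : ℕ} {a : ℂ} (hN : 1 ≤ N) (ha : a ≠ 0) (h : NF F k N a)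
    {ε : ℝ} (hε : 0 < ε) (hε1 : ε ≤ 1) :
    ∃ r : ℝ, 0 < r ∧ ∀ u : ℂ, u ≠ 0 → ‖u‖ < r → (a * u ^ N).re ≤ (1 - ε) * ‖a * u ^ N‖ →
      (∀ j : ℕ, F^[j] u ≠ 0 ∧ ‖F^[j] u‖ ^ N ≤ 4 / ε * ‖u‖ ^ N ∧
        ‖-(1 / (N * a * F^[j] u ^ N)) - -(1 / (N * a * u ^ N)) - j‖ ≤ j * (ε / 4)) ∧
        Tendsto (fun j : ℕ => F^[j] u) atTop (𝓝 0) := by
  have hNn : N ≠ 0 := by omega
  have hNr : (0 : ℝ) < N := by exact_mod_cast (by omega : 0 < N)
  have han : 0 < ‖a‖ := norm_pos_iff.2 ha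
  -- one step
  have hst : ∀ᶠ u in 𝓝[≠] (0 : ℂ), F u ≠ 0 ∧
      ‖(-(1 / (N * a * F u ^ N)) - -(1 / (N * a * u ^ N))) - 1‖ ≤ ε / 4 := by
    have h1 := (basin_step hN ha h).eventually
      (ball_mem_nhds (1 : ℂ) (show (0 : ℝ) < ε / 4 by positivity))
    have h2 : ∀ᶠ u in 𝓝[≠] (0 : ℂ), F u ≠ 0 := by
      obtain ⟨hk, -, hF⟩ := h
      have h3 : Tendsto (fun u : ℂ => 1 + u ^ N * k u) (𝓝 0) (𝓝 1) := by
        have h4 : Tendsto (fun u : ℂ => u ^ N) (𝓝 0) (𝓝 (0 ^ N)) := (continuous_pow N).tendsto 0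
        have h5 := (h4.mul hk.continuousAt.tendsto).const_add 1
        rwa [zero_pow hNn, zero_mul, add_zero] at h5
      filter_upwards [nhdsWithin_le_nhds hF, nhdsWithin_le_nhds (h3.eventually_ne one_ne_zero),
        self_mem_nhdsWithin] with u h4 h5 h6
      rw [h4, show u + u ^ (N + 1) * k u = u * (1 + u ^ N * k u) by ring]
      exact mul_ne_zero h6 h5
    filter_upwards [h1, h2] with u h3 h4
    rw [dist_eq_norm] at h3
    exact ⟨h4, h3.le⟩
  rw [eventually_nhdsWithin_iff] at hst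
  obtain ⟨r1, hr1, hst⟩ := Metric.eventually_nhds_iff_ball.1 hst
  obtain ⟨r, hr, hrr⟩ : ∃ r : ℝ, 0 < r ∧ 4 / ε * r ^ N < r1 ^ N := by
    have h1 : Tendsto (fun r : ℝ => 4 / ε * r ^ N) (𝓝[>] 0) (𝓝 0) := by
      have h2 : Continuous (fun r : ℝ => 4 / ε * r ^ N) := by fun_prop
      have h3 := h2.tendsto 0
      rw [zero_pow hNn, mul_zero] at h3
      exact h3.mono_left nhdsWithin_le_nhds
    obtain ⟨r, h6, h9⟩ := ((h1.eventually (gt_mem_nhds (show (0 : ℝ) < r1 ^ N by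
      positivity))).and self_mem_nhdsWithin).exists
    exact ⟨r, h9, h6⟩
  refine ⟨r, hr, fun u hu0 hur hcone => ?_⟩
  obtain ⟨W, hW⟩ : ∃ W : ℂ → ℂ, W = fun u => -(1 / (N * a * u ^ N)) := ⟨_, rfl⟩
  have hWn : ∀ w : ℂ, w ≠ 0 → ‖W w‖ * (N * ‖a‖ * ‖w‖ ^ N) = 1 := by
    intro w hw
    have h1 : 0 < ‖w‖ := norm_pos_iff.2 hw
    rw [hW]
    simp only
    rw [norm_neg, norm_div, norm_one, norm_mul, norm_mul, norm_pow, Complex.norm_natCast]
    field_simp
  have hWpos : ∀ w : ℂ, w ≠ 0 → 0 < ‖W w‖ := by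
    intro w hw
    have h1 := hWn w hw
    rcases (norm_nonneg (W w)).lt_or_eq with h2 | h2
    · exact h2
    · rw [← h2, zero_mul] at h1
      exact absurd h1 zero_ne_one
  have hc0 : -(1 - ε) * ‖W u‖ ≤ (W u).re := by
    have h1 := cone_inv (N := N) hN (mul_ne_zero ha (pow_ne_zero N hu0)) hcone
    rw [hW]
    simp only
    rw [mul_assoc]
    exact h1
  have key : ∀ j : ℕ, F^[j] u ≠ 0 ∧ ‖W (F^[j] u) - W u - j‖ ≤ j * (ε / 4) := by
    intro j
    induction j with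
    | zero => exact ⟨hu0, by simp⟩
    | succ j ih =>
      obtain ⟨h1, h2⟩ := ih
      have h3 := sect_low hε hε1 (Nat.cast_nonneg j : (0 : ℝ) ≤ (j : ℝ)) hc0
      have h4 : ε / 4 * ‖W u‖ ≤ ‖W (F^[j] u)‖ := by
        have h5 : ‖W u + ((j : ℝ) : ℂ)‖ ≤ ‖W (F^[j] u)‖ + ‖W (F^[j] u) - W u - j‖ := by
          have e : W u + ((j : ℝ) : ℂ) = W (F^[j] u) - (W (F^[j] u) - W u - j) := by
            push_cast; ring
          rw [e]
          exact norm_sub_le _ _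
        have h6 : 0 ≤ ε * ‖W u‖ := by positivity
        have h7 : 0 ≤ (j : ℝ) * ε := by positivity
        nlinarith
      have h5 : ‖F^[j] u‖ ^ N ≤ 4 / ε * ‖u‖ ^ N := by
        have e1 := hWn _ h1
        have e2 := hWn _ hu0
        have h6 : ε / 4 * ‖W u‖ * (N * ‖a‖ * ‖F^[j] u‖ ^ N) ≤ ‖W u‖ * (N * ‖a‖ * ‖u‖ ^ N) := by
          rw [e2, ← e1]
          exact mul_le_mul_of_nonneg_right h4 (by positivity)
        have h7 : (‖W u‖ * (N * ‖a‖)) * (ε / 4 * ‖F^[j] u‖ ^ N) ≤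
            (‖W u‖ * (N * ‖a‖)) * ‖u‖ ^ N := by
          calc _ = _ := by ring
            _ ≤ _ := h6
            _ = _ := by ring
        have h8 : ε / 4 * ‖F^[j] u‖ ^ N ≤ ‖u‖ ^ N :=
          le_of_mul_le_mul_left h7 (mul_pos (hWpos u hu0) (by positivity))
        have h9 : ‖F^[j] u‖ ^ N = 4 / ε * (ε / 4 * ‖F^[j] u‖ ^ N) := by
          field_simp
        rw [h9]
        exact mul_le_mul_of_nonneg_left h8 (by positivity)
      have h6 : ‖F^[j] u‖ < r1 := by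
        have h7 : ‖F^[j] u‖ ^ N < r1 ^ N := by
          refine h5.trans_lt (lt_of_le_of_lt ?_ hrr)
          exact mul_le_mul_of_nonneg_left (pow_le_pow_left₀ (norm_nonneg _) hur.le N)
            (by positivity)
        exact (pow_lt_pow_iff_left₀ (norm_nonneg _) hr1.le hNn).1 h7
      obtain ⟨h7, h8⟩ := hst (F^[j] u) (by rw [mem_ball, dist_zero_right]; exact h6) h1
      rw [Function.iterate_succ_apply']
      refine ⟨h7, ?_⟩
      have e : W (F (F^[j] u)) - W u - ((j + 1 : ℕ) : ℂ) =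
          (W (F (F^[j] u)) - W (F^[j] u) - 1) + (W (F^[j] u) - W u - j) := by
        push_cast; ring
      rw [e]
      refine (norm_add_le _ _).trans ?_
      have h9 : ‖W (F (F^[j] u)) - W (F^[j] u) - 1‖ ≤ ε / 4 := by
        rw [hW]
        exact h8
      push_cast
      linarith
  have hlow : ∀ j : ℕ, ε / 4 * (‖W u‖ + j) ≤ ‖W (F^[j] u)‖ := by
    intro j
    obtain ⟨h1, h2⟩ := key j
    have h3 := sect_low hε hε1 (Nat.cast_nonneg j : (0 : ℝ) ≤ (j : ℝ)) hc0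
    have h5 : ‖W u + ((j : ℝ) : ℂ)‖ ≤ ‖W (F^[j] u)‖ + ‖W (F^[j] u) - W u - j‖ := by
      have e : W u + ((j : ℝ) : ℂ) = W (F^[j] u) - (W (F^[j] u) - W u - j) := by
        push_cast; ring
      rw [e]
      exact norm_sub_le _ _
    have h6 : 0 ≤ ε * ‖W u‖ := by positivity
    nlinarith
  have hval : ∀ j : ℕ, ‖F^[j] u‖ ^ N = 1 / (‖W (F^[j] u)‖ * (N * ‖a‖)) := by
    intro j
    have h1 := hWn _ (key j).1
    have h2 := hWpos _ (key j).1
    rw [eq_div_iff (by positivity)]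
    calc _ = _ := by ring
      _ = 1 := h1
  refine ⟨fun j => ⟨(key j).1, ?_, ?_⟩, ?_⟩
  · have h1 : ‖F^[j] u‖ ^ N * (‖W (F^[j] u)‖ * (N * ‖a‖)) = 1 := by
      calc _ = _ := by ring
        _ = 1 := hWn _ (key j).1
    have h2 := hWn _ hu0
    have h3 : ε / 4 * ‖W u‖ ≤ ‖W (F^[j] u)‖ := by
      refine le_trans ?_ (hlow j)
      have : (0 : ℝ) ≤ j := Nat.cast_nonneg j
      have h4 : 0 ≤ ε / 4 * (j : ℝ) := by positivity
      nlinarith
    have h4 : ‖F^[j] u‖ ^ N * (ε / 4 * ‖W u‖ * (N * ‖a‖)) ≤ 1 := by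
      rw [← h1]
      gcongr
    have h5 : ‖F^[j] u‖ ^ N * ((ε / 4) * (‖W u‖ * (N * ‖a‖ * ‖u‖ ^ N))) ≤ 1 * ‖u‖ ^ N := by
      calc _ = ‖F^[j] u‖ ^ N * (ε / 4 * ‖W u‖ * (N * ‖a‖)) * ‖u‖ ^ N := by ring
        _ ≤ _ := mul_le_mul_of_nonneg_right h4 (by positivity)
    rw [h2, mul_one, one_mul] at h5
    rw [div_mul_eq_mul_div, le_div_iff₀ hε]
    linarith
  · have h1 := (key j).2
    rw [hW] at h1
    exact h1
  · have h1 : Tendsto (fun j : ℕ => ‖W (F^[j] u)‖) atTop atTop := by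
      refine tendsto_atTop_mono hlow ?_
      refine Tendsto.const_mul_atTop (by positivity) ?_
      exact tendsto_atTop_add_const_left _ _ tendsto_natCast_atTop_atTop
    have h2 : Tendsto (fun j : ℕ => ‖F^[j] u‖ ^ N) atTop (𝓝 0) := by
      have h3 : Tendsto (fun j : ℕ => 1 / (‖W (F^[j] u)‖ * (N * ‖a‖))) atTop (𝓝 0) := by
        refine Tendsto.congr (fun j => (one_div _).symm) ?_
        exact (h1.atTop_mul_const (by positivity)).inv_tendsto_atTop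
      exact h3.congr fun j => (hval j).symm
    rw [tendsto_zero_iff_norm_tendsto_zero]
    have h3 := h2.rpow_const (p := ((N : ℝ))⁻¹) (Or.inr (by positivity))
    rw [Real.zero_rpow (by positivity)] at h3
    refine h3.congr fun j => ?_
    exact Real.pow_rpow_inv_natCast (norm_nonneg _) hNn

/-- the derivative of the normal form -/
theorem nf_der {F k : ℂ → ℂ} {N : ℕ} {a : ℂ} (h : NF F k N a) :
    ∃ K : ℂ → ℂ, AnalyticAt ℂ K 0 ∧ K 0 = ((N : ℂ) + 1) * a ∧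
      ∀ᶠ u in 𝓝 (0 : ℂ), HasDerivAt F (1 + u ^ N * K u) u := by
  obtain ⟨hk, hk0, hF⟩ := h
  refine ⟨fun u => ((N : ℂ) + 1) * k u + u * deriv k u, ?_, ?_, ?_⟩
  · exact (analyticAt_const.mul hk).add (analyticAt_id.mul hk.deriv)
  · simp only
    rw [hk0, zero_mul, add_zero]
  · filter_upwards [hF.eventually_nhds, hk.eventually_analyticAt] with u hFu hu
    have h3 : HasDerivAt (fun u : ℂ => u ^ (N + 1)) (((N + 1 : ℕ) : ℂ) * u ^ N) u := by
      have := hasDerivAt_pow (N + 1) u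
      simpa using this
    have h4 : HasDerivAt (fun u : ℂ => u + u ^ (N + 1) * k u)
        (1 + ((((N + 1 : ℕ) : ℂ) * u ^ N) * k u + u ^ (N + 1) * deriv k u)) u :=
      (hasDerivAt_id u).add (h3.mul hu.differentiableAt.hasDerivAt)
    have h5 : 1 + ((((N + 1 : ℕ) : ℂ) * u ^ N) * k u + u ^ (N + 1) * deriv k u) =
        1 + u ^ N * (((N : ℂ) + 1) * k u + u * deriv k u) := by
      push_cast
      ring
    rw [h5] at h4
    exact h4.congr_of_eventuallyEq hFu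

/-- a factor `1 + u^N K u` with `K 0 = b` inside the cone -/
theorem fac_low {K : ℂ → ℂ} {N : ℕ} {a b : ℂ} {m : ℝ} (hm : 0 < m) (hb : b = (m : ℂ) * a)
    (ha : a ≠ 0) (hK : ContinuousAt K 0) (hK0 : K 0 = b) :
    ∃ r c : ℝ, 0 < r ∧ 0 < c ∧ ∀ u : ℂ, ‖u‖ < r → 1 / 2 * ‖a * u ^ N‖ ≤ (a * u ^ N).re →
      1 + c * ‖u‖ ^ N ≤ ‖1 + u ^ N * K u‖ := by
  have han : 0 < ‖a‖ := norm_pos_iff.2 ha
  obtain ⟨r, hr, hKr⟩ := Metric.continuousAt_iff.1 hK (m * ‖a‖ / 4) (by positivity)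
  refine ⟨r, m * ‖a‖ / 4, hr, by positivity, fun u hu hc => ?_⟩
  have h1 := hKr (by rw [dist_zero_right]; exact hu)
  rw [dist_eq_norm, hK0, hb] at h1
  have h2 : (1 + u ^ N * K u).re = 1 + m * (a * u ^ N).re +
      (u ^ N * (K u - (m : ℂ) * a)).re := by
    have e : 1 + u ^ N * K u = 1 + (m : ℂ) * (a * u ^ N) + u ^ N * (K u - (m : ℂ) * a) := by ring
    rw [e, Complex.add_re, Complex.add_re, Complex.re_ofReal_mul, Complex.one_re]
  have h3 : |(u ^ N * (K u - (m : ℂ) * a)).re| ≤ ‖u‖ ^ N * (m * ‖a‖ / 4) := by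
    refine (Complex.abs_re_le_norm _).trans ?_
    rw [norm_mul, norm_pow]
    exact mul_le_mul_of_nonneg_left h1.le (by positivity)
  have h4 := (abs_le.1 h3).1
  have h5 : m * (1 / 2 * ‖a * u ^ N‖) ≤ m * (a * u ^ N).re := mul_le_mul_of_nonneg_left hc hm.le
  rw [norm_mul, norm_pow] at h5
  have h6 := Complex.re_le_norm (1 + u ^ N * K u)
  rw [h2] at h6
  nlinarith

/-- the upper bound of the factor -/
theorem fac_up {K : ℂ → ℂ} (N : ℕ) (hK : ContinuousAt K 0) :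
    ∃ r C : ℝ, 0 < r ∧ 0 < C ∧ ∀ u : ℂ, ‖u‖ < r → ‖1 + u ^ N * K u‖ ≤ 1 + C * ‖u‖ ^ N := by
  obtain ⟨r, hr, hKr⟩ := Metric.continuousAt_iff.1 hK 1 one_pos
  refine ⟨r, ‖K 0‖ + 1, hr, by positivity, fun u hu => ?_⟩
  have h1 := hKr (by rw [dist_zero_right]; exact hu)
  rw [dist_eq_norm] at h1
  have h2 : ‖K u‖ ≤ ‖K 0‖ + 1 := by
    have h3 := norm_add_le (K 0) (K u - K 0)
    rw [add_sub_cancel] at h3
    linarith
  refine (norm_add_le _ _).trans ?_
  rw [norm_one, norm_mul, norm_pow]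
  have h4 := mul_le_mul_of_nonneg_left h2 (by positivity : (0 : ℝ) ≤ ‖u‖ ^ N)
  linarith

/-- inside the cones `F` expands; upper bounds everywhere near `0` -/
theorem cone_exp {F k : ℂ → ℂ} {N : ℕ} {a : ℂ} (hN : 1 ≤ N) (ha : a ≠ 0) (h : NF F k N a) :
    ∃ r c C : ℝ, 0 < r ∧ 0 < c ∧ 0 < C ∧
      (∀ u : ℂ, ‖u‖ < r → 1 / 2 * ‖a * u ^ N‖ ≤ (a * u ^ N).re →
        1 + c * ‖u‖ ^ N ≤ ‖deriv F u‖ ∧ ‖u‖ * (1 + c * ‖u‖ ^ N) ≤ ‖F u‖) ∧
      ∀ u : ℂ, ‖u‖ < r → DifferentiableAt ℂ F u ∧ ‖deriv F u‖ ≤ 1 + C * ‖u‖ ^ N ∧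
        ‖F u‖ ≤ ‖u‖ * (1 + C * ‖u‖ ^ N) := by
  obtain ⟨K, hKa, hK0, hKF⟩ := nf_der h
  obtain ⟨hk, hk0, hF⟩ := h
  have hNr : (0 : ℝ) < (N : ℝ) + 1 := by positivity
  obtain ⟨r1, c1, hr1, hc1, h1⟩ := fac_low (N := N) (a := a) (b := ((N : ℂ) + 1) * a)
    (m := (N : ℝ) + 1) hNr (by push_cast; ring) ha hKa.continuousAt hK0
  obtain ⟨r2, c2, hr2, hc2, h2⟩ := fac_low (N := N) (a := a) (b := a)
    (m := 1) one_pos (by push_cast; ring) ha hk.continuousAt hk0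
  obtain ⟨r3, C3, hr3, hC3, h3⟩ := fac_up N hKa.continuousAt
  obtain ⟨r4, C4, hr4, hC4, h4⟩ := fac_up N hk.continuousAt
  obtain ⟨r5, hr5, h5⟩ := Metric.eventually_nhds_iff_ball.1 (hKF.and hF)
  obtain ⟨r, hr⟩ : ∃ r : ℝ, r = min (min (min r1 r2) (min r3 r4)) r5 := ⟨_, rfl⟩
  have hrp : 0 < r := by
    rw [hr]; positivity
  have hra : r ≤ r1 := by
    rw [hr]; exact (min_le_left _ _).trans ((min_le_left _ _).trans (min_le_left _ _))
  have hrb : r ≤ r2 := by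
    rw [hr]; exact (min_le_left _ _).trans ((min_le_left _ _).trans (min_le_right _ _))
  have hrc : r ≤ r3 := by
    rw [hr]; exact (min_le_left _ _).trans ((min_le_right _ _).trans (min_le_left _ _))
  have hrd : r ≤ r4 := by
    rw [hr]; exact (min_le_left _ _).trans ((min_le_right _ _).trans (min_le_right _ _))
  have hre : r ≤ r5 := by rw [hr]; exact min_le_right _ _
  refine ⟨r, min c1 c2, max C3 C4, hrp, lt_min hc1 hc2, lt_max_of_lt_left hC3, ?_, ?_⟩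
  · intro u hu hc
    obtain ⟨h6, h7⟩ := h5 u (by rw [mem_ball, dist_zero_right]; linarith)
    have hp : 0 ≤ ‖u‖ ^ N := by positivity
    refine ⟨?_, ?_⟩
    · rw [h6.deriv]
      refine le_trans ?_ (h1 u (by linarith) hc)
      have := mul_le_mul_of_nonneg_right (min_le_left c1 c2) hp
      linarith
    · have e : F u = u * (1 + u ^ N * k u) := by rw [h7]; ring
      rw [e, norm_mul]
      refine mul_le_mul_of_nonneg_left ?_ (norm_nonneg _)
      refine le_trans ?_ (h2 u (by linarith) hc)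
      have := mul_le_mul_of_nonneg_right (min_le_right c1 c2) hp
      linarith
  · intro u hu
    obtain ⟨h6, h7⟩ := h5 u (by rw [mem_ball, dist_zero_right]; linarith)
    have hp : 0 ≤ ‖u‖ ^ N := by positivity
    refine ⟨h6.differentiableAt, ?_, ?_⟩
    · rw [h6.deriv]
      refine (h3 u (by linarith)).trans ?_
      have := mul_le_mul_of_nonneg_right (le_max_left C3 C4) hp
      linarith
    · have e : F u = u * (1 + u ^ N * k u) := by rw [h7]; ring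
      rw [e, norm_mul]
      refine mul_le_mul_of_nonneg_left ?_ (norm_nonneg _)
      refine (h4 u (by linarith)).trans ?_
      have := mul_le_mul_of_nonneg_right (le_max_right C3 C4) hp
      linarith

/-- the local distortion at a parabolic point -/
theorem der_lip {F k : ℂ → ℂ} {N : ℕ} {a : ℂ} (hN : 1 ≤ N) (h : NF F k N a) :
    ∃ r C : ℝ, 0 < r ∧ 0 < C ∧ ∀ z w : ℂ, ‖z‖ < r → ‖w - z‖ ≤ ‖z‖ / 2 →
      ‖deriv F w - deriv F z‖ * ‖z‖ ≤ C * ‖z‖ ^ N * ‖w - z‖ := by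
  obtain ⟨K, hKa, hK0, hKF⟩ := nf_der h
  have hKd : ContinuousAt (deriv K) 0 := hKa.deriv.continuousAt
  obtain ⟨r1, hr1, h1⟩ := Metric.continuousAt_iff.1 hKa.continuousAt 1 one_pos
  obtain ⟨r2, hr2, h2⟩ := Metric.continuousAt_iff.1 hKd 1 one_pos
  obtain ⟨r3, hr3, h3⟩ := Metric.eventually_nhds_iff_ball.1 (hKF.and hKa.eventually_analyticAt)
  obtain ⟨B, hB⟩ : ∃ B : ℝ, B = N * (‖K 0‖ + 1) + (‖deriv K 0‖ + 1) := ⟨_, rfl⟩
  have hBp : 0 < B := by rw [hB]; positivity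
  obtain ⟨r, hr⟩ : ∃ r : ℝ, r = min (min r1 r2) (min r3 1) / 2 := ⟨_, rfl⟩
  have hrp : 0 < r := by rw [hr]; positivity
  have hra : 2 * r ≤ r1 := by
    rw [hr, mul_div_cancel₀ _ two_ne_zero]
    exact (min_le_left _ _).trans (min_le_left _ _)
  have hrb : 2 * r ≤ r2 := by
    rw [hr, mul_div_cancel₀ _ two_ne_zero]
    exact (min_le_left _ _).trans (min_le_right _ _)
  have hrc : 2 * r ≤ r3 := by
    rw [hr, mul_div_cancel₀ _ two_ne_zero]
    exact (min_le_right _ _).trans (min_le_left _ _)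
  have hrd : 2 * r ≤ 1 := by
    rw [hr, mul_div_cancel₀ _ two_ne_zero]
    exact (min_le_right _ _).trans (min_le_right _ _)
  refine ⟨r, B * 2 ^ (N - 1), hrp, by positivity, fun z w hz hw => ?_⟩
  have hz0 : 0 ≤ ‖z‖ := norm_nonneg z
  have hin : ∀ y ∈ closedBall z (‖z‖ / 2), ‖y‖ ≤ 2 * ‖z‖ := by
    intro y hy
    rw [mem_closedBall, dist_eq_norm] at hy
    have h4 := norm_add_le z (y - z)
    rw [add_sub_cancel] at h4
    linarith
  have hder : ∀ y ∈ closedBall z (‖z‖ / 2), HasDerivWithinAt (fun u => 1 + u ^ N * K u)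
      ((N * y ^ (N - 1)) * K y + y ^ N * deriv K y) (closedBall z (‖z‖ / 2)) y := by
    intro y hy
    have h4 := hin y hy
    have h5 := (h3 y (by rw [mem_ball, dist_zero_right]; linarith)).2
    have h6 := ((hasDerivAt_pow N y).mul h5.differentiableAt.hasDerivAt).const_add 1
    exact h6.hasDerivWithinAt
  have hbd : ∀ y ∈ closedBall z (‖z‖ / 2),
      ‖(N * y ^ (N - 1)) * K y + y ^ N * deriv K y‖ ≤ B * (2 * ‖z‖) ^ (N - 1) := by
    intro y hy
    have h4 := hin y hy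
    have h5 : ‖K y‖ ≤ ‖K 0‖ + 1 := by
      have h6 := h1 (x := y) (by rw [dist_zero_right]; linarith)
      rw [dist_eq_norm] at h6
      have h7 := norm_add_le (K 0) (K y - K 0)
      rw [add_sub_cancel] at h7
      linarith
    have h6 : ‖deriv K y‖ ≤ ‖deriv K 0‖ + 1 := by
      have h6 := h2 (x := y) (by rw [dist_zero_right]; linarith)
      rw [dist_eq_norm] at h6
      have h7 := norm_add_le (deriv K 0) (deriv K y - deriv K 0)
      rw [add_sub_cancel] at h7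
      linarith
    have h7 : ‖y‖ ^ (N - 1) ≤ (2 * ‖z‖) ^ (N - 1) := pow_le_pow_left₀ (norm_nonneg _) h4 _
    have h8 : ‖y‖ ^ N ≤ (2 * ‖z‖) ^ (N - 1) := by
      have e : ‖y‖ ^ N = ‖y‖ ^ (N - 1) * ‖y‖ := by
        rw [← pow_succ]
        congr 1
        omega
      rw [e]
      calc ‖y‖ ^ (N - 1) * ‖y‖ ≤ (2 * ‖z‖) ^ (N - 1) * 1 :=
            mul_le_mul h7 (by linarith) (norm_nonneg _) (by positivity)
        _ = _ := mul_one _
    refine (norm_add_le _ _).trans ?_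
    rw [norm_mul, norm_mul, norm_mul, norm_pow, norm_pow, Complex.norm_natCast]
    have h9 : (N : ℝ) * ‖y‖ ^ (N - 1) * ‖K y‖ ≤ N * (2 * ‖z‖) ^ (N - 1) * (‖K 0‖ + 1) := by
      gcongr
    have h10 : ‖y‖ ^ N * ‖deriv K y‖ ≤ (2 * ‖z‖) ^ (N - 1) * (‖deriv K 0‖ + 1) := by
      gcongr
    rw [hB]
    calc _ ≤ _ := add_le_add h9 h10
      _ = _ := by ring
  have hwm : w ∈ closedBall z (‖z‖ / 2) := by
    rw [mem_closedBall, dist_eq_norm]; exact hw
  have hzm : z ∈ closedBall z (‖z‖ / 2) := mem_closedBall_self (by positivity)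
  have hmv := (convex_closedBall z (‖z‖ / 2)).norm_image_sub_le_of_norm_hasDerivWithin_le
    hder hbd hzm hwm
  have e1 : deriv F w = 1 + w ^ N * K w := by
    have h4 := hin w hwm
    exact (h3 w (by rw [mem_ball, dist_zero_right]; linarith)).1.deriv
  have e2 : deriv F z = 1 + z ^ N * K z := by
    exact (h3 z (by rw [mem_ball, dist_zero_right]; linarith)).1.deriv
  rw [e1, e2]
  have e3 : ‖z‖ ^ N = ‖z‖ ^ (N - 1) * ‖z‖ := by
    rw [← pow_succ]
    congr 1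
    omega
  calc ‖1 + w ^ N * K w - (1 + z ^ N * K z)‖ * ‖z‖
      ≤ (B * (2 * ‖z‖) ^ (N - 1) * ‖w - z‖) * ‖z‖ := mul_le_mul_of_nonneg_right hmv hz0
    _ = B * 2 ^ (N - 1) * ‖z‖ ^ N * ‖w - z‖ := by rw [e3, mul_pow]; ring

end Pool.Agent.H79.PB
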