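import Pool.Agent.H79.PB.DirExh
import Pool.Agent.H79.PB.Local

/-!
# The basin near a parabolic point

`basin_near_par`: the points near a parabolic point outside the cones of the repelling directions are in the basin.
-/

set_option autoImplicit false

open Filter Topology Polynomial Metric Set

namespace Pool.Agent.H79.PB

open Pool.Agent.H44.Fatou Pool.Agent.H32.BT Pool.Agent.H79.Eul Pool.Agent.H79.Par

theorem fixMult_of_orb {d : ℕ} {v0 : E d} {x : ℕ → ℂ} {n : ℕ} (ho : Orb v0 x n)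
    (hx : x n = x 0) : FixMult (Rf v0)^[n] (x 0 : OnePoint ℂ) (trD v0 n (x 0)) := by
  refine Or.inl ⟨x 0, fun z => it v0 n z, rfl, ?_, (orb_deriv ho).self_of_nhds, ?_⟩
  · show it v0 n (x 0) = x 0
    rw [orb_it ho n le_rfl, hx]
  · filter_upwards [orb_shift ho] with z hz
    exact rat_it fun i hi => (hz i hi).1

/-- the orbits which stay near a periodic point are finite -/
theorem stay_fin {d : ℕ} {v0 : E d} {x : ℕ → ℂ} {n : ℕ} (hn : 0 < n) (ho : Orb v0 x n) :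
    ∃ r : ℝ, 0 < r ∧ ∀ y : ℂ, (∀ k : ℕ, ‖(fun u => it v0 n (x 0 + u) - x 0)^[k] y‖ < r) →
      (∀ k : ℕ, (Rf v0)^[n * k] ((x 0 + y : ℂ) : OnePoint ℂ) =
        ((x 0 + (fun u => it v0 n (x 0 + u) - x 0)^[k] y : ℂ) : OnePoint ℂ)) ∧
      ∀ j : ℕ, (Rf v0)^[j] ((x 0 + y : ℂ) : OnePoint ℂ) ≠ OnePoint.infty := by
  obtain ⟨r, hr, hb⟩ := Metric.eventually_nhds_iff_ball.1 (orb_shift ho)
  refine ⟨r, hr, fun y hy => ?_⟩
  have hfin : ∀ k : ℕ, ∀ i < n,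
      ev v0.2 (it v0 i (x 0 + (fun u => it v0 n (x 0 + u) - x 0)^[k] y)) ≠ 0 := by
    intro k i hi
    have h1 := hb (x 0 + (fun u => it v0 n (x 0 + u) - x 0)^[k] y) (by
      rw [mem_ball, dist_eq_norm, add_sub_cancel_left]
      exact hy k)
    exact (h1 i hi).1
  have hk : ∀ k : ℕ, (Rf v0)^[n * k] ((x 0 + y : ℂ) : OnePoint ℂ) =
        ((x 0 + (fun u => it v0 n (x 0 + u) - x 0)^[k] y : ℂ) : OnePoint ℂ) := by
    intro k
    induction k with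
    | zero => simp
    | succ k ih =>
      rw [Nat.mul_succ, Nat.add_comm, Function.iterate_add_apply, ih, rat_it (hfin k),
        Function.iterate_succ_apply']
      congr 1
      ring
  refine ⟨hk, fun j => ?_⟩
  have h1 : j = j % n + n * (j / n) := (Nat.mod_add_div j n).symm
  rw [h1, Function.iterate_add_apply, hk,
    rat_it fun i hi => hfin _ i (hi.trans (Nat.mod_lt j hn))]
  exact OnePoint.coe_ne_infty _

theorem orb_fin {d : ℕ} {v0 : E d} {x : ℕ → ℂ} {n : ℕ} (hn : 0 < n) (ho : Orb v0 x n)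
    (hx : x n = x 0) (j : ℕ) : (Rf v0)^[j] (x 0 : OnePoint ℂ) ≠ OnePoint.infty := by
  obtain ⟨r, hr, h⟩ := stay_fin hn ho
  have h0 : ∀ k : ℕ, (fun u => it v0 n (x 0 + u) - x 0)^[k] (0 : ℂ) = 0 := by
    intro k
    refine Function.iterate_fixed ?_ k
    show it v0 n (x 0 + 0) - x 0 = 0
    rw [add_zero, orb_it ho n le_rfl, hx, sub_self]
  have h1 := (h 0 fun k => by rw [h0 k, norm_zero]; exact hr).2 j
  rwa [add_zero] at h1

theorem ty2_near_par {d : ℕ} {v0 : E d} {n : ℕ} {p a : ℂ} {q : ℕ} (hP : ParPt v0 n p a q)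
    {ε : ℝ} (hε : 0 < ε) :
    ∃ r : ℝ, 0 < r ∧ ∀ y : ℂ, y ≠ 0 → ‖y‖ < r → (a * y ^ q).re ≤ (1 - ε) * ‖a * y ^ q‖ →
      Ty2 (Rf v0) ((p + y : ℂ) : OnePoint ℂ) (p : OnePoint ℂ) n ∧
      (∀ j, (Rf v0)^[j] ((p + y : ℂ) : OnePoint ℂ) ≠ OnePoint.infty) ∧
      ∀ j, (Rf v0)^[j] (p : OnePoint ℂ) ≠ OnePoint.infty := by
  obtain ⟨hn, hq, ha, x, k, rfl, ho, hx, hmul, hnf⟩ := hP
  obtain ⟨ε1, hε1, hε11, hε1e⟩ : ∃ ε1 : ℝ, 0 < ε1 ∧ ε1 ≤ 1 ∧ ε1 ≤ ε :=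
    ⟨min ε 1, by positivity, min_le_right _ _, min_le_left _ _⟩
  obtain ⟨r1, hr1, h1⟩ := cone_basin hq ha hnf hε1 hε11
  obtain ⟨r2, hr2, h2⟩ := stay_fin hn ho
  have hqn : q ≠ 0 := by omega
  obtain ⟨r, hr, hra, hrb⟩ : ∃ r : ℝ, 0 < r ∧ r ≤ r1 ∧ 4 / ε1 * r ^ q < r2 ^ q := by
    have h3 : Tendsto (fun r : ℝ => 4 / ε1 * r ^ q) (𝓝[>] 0) (𝓝 0) := by
      have h4 : Continuous (fun r : ℝ => 4 / ε1 * r ^ q) := by fun_prop
      have h5 := h4.tendsto 0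
      rw [zero_pow hqn, mul_zero] at h5
      exact h5.mono_left nhdsWithin_le_nhds
    have h6 : ∀ᶠ r : ℝ in 𝓝[>] 0, r < r1 := nhdsWithin_le_nhds (gt_mem_nhds hr1)
    obtain ⟨r, h7, h8, h9⟩ := ((h3.eventually (gt_mem_nhds (show (0 : ℝ) < r2 ^ q by
      positivity))).and (h6.and self_mem_nhdsWithin)).exists
    exact ⟨r, h9, h8.le, h7⟩
  refine ⟨r, hr, fun y hy0 hyr hc => ?_⟩
  have hc' : (a * y ^ q).re ≤ (1 - ε1) * ‖a * y ^ q‖ :=
    hc.trans (mul_le_mul_of_nonneg_right (by linarith) (norm_nonneg _))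
  obtain ⟨h3, h4⟩ := h1 y hy0 (by linarith) hc'
  obtain ⟨h5, h6⟩ := h2 y fun j => by
    have h7 : ‖(fun u => it v0 n (x 0 + u) - x 0)^[j] y‖ ^ q < r2 ^ q := by
      refine (h3 j).2.1.trans_lt (lt_of_le_of_lt ?_ hrb)
      exact mul_le_mul_of_nonneg_left (pow_le_pow_left₀ (norm_nonneg _) hyr.le q) (by positivity)
    exact (pow_lt_pow_iff_left₀ (norm_nonneg _) hr2.le hqn).1 h7
  refine ⟨⟨hn, ?_, ?_, ?_⟩, h6, orb_fin hn ho hx⟩
  · have h7 := fixMult_of_orb ho hx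
    rwa [hmul] at h7
  · have h7 : Tendsto (fun j : ℕ => x 0 + (fun u => it v0 n (x 0 + u) - x 0)^[j] y) atTop
        (𝓝 (x 0)) := by
      have h8 := h4.const_add (x 0)
      rwa [add_zero] at h8
    have h8 : Tendsto (fun j : ℕ => ((x 0 + (fun u => it v0 n (x 0 + u) - x 0)^[j] y : ℂ) :
        OnePoint ℂ)) atTop (𝓝 ((x 0 : ℂ) : OnePoint ℂ)) :=
      (OnePoint.continuous_coe.tendsto (x 0)).comp h7
    exact h8.congr fun j => (h5 j).symm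
  · intro j hj
    rw [h5 j] at hj
    have h7 := OnePoint.coe_injective hj
    exact (h3 j).1 (by simpa using h7)

theorem basin_near_par {d : ℕ} {v0 : E d} {n : ℕ} {p a : ℂ} {q : ℕ} (hP : ParPt v0 n p a q)
    {ε : ℝ} (hε : 0 < ε) :
    ∃ r : ℝ, 0 < r ∧ ∀ y : ℂ, y ≠ 0 → ‖y‖ < r → (a * y ^ q).re ≤ (1 - ε) * ‖a * y ^ q‖ →
      Basin v0 (p + y) := by
  obtain ⟨r, hr, h⟩ := ty2_near_par hP hε
  refine ⟨r, hr, fun y h1 h2 h3 => ?_⟩
  obtain ⟨h4, h5, h6⟩ := h y h1 h2 h3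
  exact ⟨p, n, Or.inr h4, h5, h6⟩

end Pool.Agent.H79.PB
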