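import Pool.Agent.H79.PB.Cplx
import Pool.Agent.H91.CE.ROBL

/-!
# Compact sets of good directions of almost full measure

`dir_exh`: a property `Q` of complex numbers, invariant under positive scaling and true almost everywhere, holds on a
compact set `K` of unit vectors such that the points of the disc whose direction is not in `K` have small measure.
`par_dirs`: the application to the directions `η ^ M • v` for almost every `v`.
-/

set_option autoImplicit false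

open Filter Topology Polynomial Metric Set MeasureTheory
open scoped Pointwise

namespace Pool.Agent.H79.PB

open Pool.Agent.H44.Fatou Pool.Agent.H32.BT Pool.Agent.H79.Eul Pool.Agent.H79.Par

theorem dir_exh {Q : ℂ → Prop} (hQ : ∀ᵐ η : ℂ, Q η)
    (hs : ∀ (η : ℂ) (t : ℝ), 0 < t → Q η → Q ((t : ℂ) * η)) {ε : ENNReal} (hε : 0 < ε) :
    ∃ K : Set ℂ, IsCompact K ∧ (∀ e ∈ K, ‖e‖ = 1 ∧ Q e) ∧
      volume (ball (0 : ℂ) 1 ∩ {u : ℂ | u / (‖u‖ : ℂ) ∉ K}) ≤ ε := by
  obtain ⟨ε1, hε1, hε1t, hε1e⟩ : ∃ ε1 : ENNReal, 0 < ε1 ∧ ε1 ≠ ⊤ ∧ 2 * ε1 ≤ ε := by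
    refine ⟨min (ε / 2) 1, lt_min (ENNReal.div_pos hε.ne' (by simp)) one_pos,
      ne_top_of_le_ne_top ENNReal.one_ne_top (min_le_right _ _), ?_⟩
    calc 2 * min (ε / 2) 1 ≤ 2 * (ε / 2) := by gcongr; exact min_le_left _ _
      _ = ε := ENNReal.mul_div_cancel (by simp) (by simp)
  obtain ⟨N, hN⟩ : ∃ N, N = toMeasurable volume {η : ℂ | ¬ Q η} := ⟨_, rfl⟩
  have hNm : MeasurableSet N := by rw [hN]; exact measurableSet_toMeasurable _ _
  have hN0 : volume N = 0 := by rw [hN, measure_toMeasurable]; exact hQ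
  have hsub : {η : ℂ | ¬ Q η} ⊆ N := by rw [hN]; exact subset_toMeasurable _ _
  obtain ⟨A0, hA0⟩ : ∃ A0 : Set ℂ, A0 = ball (0 : ℂ) 1 \ ball (0 : ℂ) (1 / 2) := ⟨_, rfl⟩
  have hA0m : MeasurableSet A0 := by
    rw [hA0]; exact isOpen_ball.measurableSet.diff isOpen_ball.measurableSet
  have hAm : MeasurableSet (A0 \ N) := hA0m.diff hNm
  have hAf : volume (A0 \ N) ≠ ⊤ := by
    refine ne_top_of_le_ne_top (measure_ball_lt_top (x := (0 : ℂ)) (r := 1)
      (μ := (volume : Measure ℂ))).ne (measure_mono ?_)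
    rw [hA0]
    exact sdiff_subset.trans sdiff_subset
  obtain ⟨K', hK's, hK'c, hK'm⟩ := hAm.exists_isCompact_sdiff_lt hAf hε1.ne'
  have hK'0 : ∀ u ∈ K', u ≠ 0 := by
    intro u hu h0
    have h1 := (hK's hu).1
    rw [hA0] at h1
    apply h1.2
    rw [h0]
    exact mem_ball_self (by norm_num)
  obtain ⟨K, hK⟩ : ∃ K : Set ℂ, K = (fun u : ℂ => u / (‖u‖ : ℂ)) '' K' := ⟨_, rfl⟩
  have hKc : IsCompact K := by
    rw [hK]
    refine hK'c.image_of_continuousOn ?_
    refine ContinuousOn.div continuousOn_id (by fun_prop) ?_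
    intro u hu
    exact_mod_cast (norm_pos_iff.2 (hK'0 u hu)).ne'
  refine ⟨K, hKc, ?_, ?_⟩
  · intro e he
    rw [hK] at he
    obtain ⟨u, hu, rfl⟩ := he
    have hu0 := hK'0 u hu
    have hun : 0 < ‖u‖ := norm_pos_iff.2 hu0
    refine ⟨?_, ?_⟩
    · rw [norm_div, Complex.norm_real, norm_norm, div_self hun.ne']
    · have h1 : Q u := by
        by_contra h
        exact (hK's hu).2 (hsub h)
      have h2 := hs u (‖u‖)⁻¹ (inv_pos.2 hun) h1
      rw [Complex.ofReal_inv] at h2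
      have h3 : u / (‖u‖ : ℂ) = (‖u‖ : ℂ)⁻¹ * u := by rw [div_eq_mul_inv, mul_comm]
      show Q (u / (‖u‖ : ℂ))
      rw [h3]
      exact h2
  · obtain ⟨B, hB⟩ : ∃ B : Set ℂ, B = {u : ℂ | u / (‖u‖ : ℂ) ∉ K} := ⟨_, rfl⟩
    rw [← hB]
    have h1 : A0 ∩ B ⊆ ((A0 \ N) \ K') ∪ N := by
      rintro u ⟨hu1, hu2⟩
      by_cases huN : u ∈ N
      · exact Or.inr huN
      · left
        refine ⟨⟨hu1, huN⟩, fun huK => ?_⟩
        rw [hB] at hu2
        apply hu2
        rw [hK]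
        exact ⟨u, huK, rfl⟩
    have h2 : volume (A0 ∩ B) ≤ ε1 := by
      refine (measure_mono h1).trans ((measure_union_le _ _).trans ?_)
      rw [hN0, add_zero]
      exact hK'm.le
    have h3 : ball (0 : ℂ) (1 / 2) ∩ B = ((1 / 2 : ℝ) : ℝ) • (ball (0 : ℂ) 1 ∩ B) := by
      ext u
      rw [Set.mem_smul_set_iff_inv_smul_mem₀ (by norm_num)]
      have h4 : ((1 / 2 : ℝ))⁻¹ • u = (2 : ℂ) * u := by
        rw [Complex.real_smul]
        norm_num
      rw [h4]
      have h5 : (2 : ℂ) * u / ((‖(2 : ℂ) * u‖ : ℝ) : ℂ) = u / (‖u‖ : ℂ) := by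
        rw [norm_mul]
        push_cast
        rw [RCLike.norm_ofNat]
        push_cast
        rw [mul_div_mul_left _ _ (by norm_num)]
      have h6 : ‖(2 : ℂ) * u‖ = 2 * ‖u‖ := by
        rw [norm_mul, RCLike.norm_ofNat]
      constructor
      · rintro ⟨h7, h8⟩
        rw [mem_ball, dist_zero_right] at h7
        refine ⟨?_, ?_⟩
        · rw [mem_ball, dist_zero_right, h6]
          linarith
        · rw [hB] at h8 ⊢
          show (2 : ℂ) * u / ((‖(2 : ℂ) * u‖ : ℝ) : ℂ) ∉ K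
          rw [h5]
          exact h8
      · rintro ⟨h7, h8⟩
        rw [mem_ball, dist_zero_right, h6] at h7
        refine ⟨?_, ?_⟩
        · rw [mem_ball, dist_zero_right]
          linarith
        · rw [hB] at h8 ⊢
          have h9 : (2 : ℂ) * u / ((‖(2 : ℂ) * u‖ : ℝ) : ℂ) ∉ K := h8
          rw [h5] at h9
          exact h9
    have h4 : volume (ball (0 : ℂ) (1 / 2) ∩ B) = (1 / 4 : ENNReal) * volume (ball (0 : ℂ) 1 ∩ B) := by
      rw [h3, Measure.addHaar_smul]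
      congr 1
      rw [Complex.finrank_real_complex]
      have h5 : |((1 : ℝ) / 2) ^ 2| = 1 / 4 := by norm_num
      rw [h5, ENNReal.ofReal_div_of_pos (by norm_num)]
      norm_num
    have hm : volume (ball (0 : ℂ) 1 ∩ B) ≠ ⊤ :=
      ne_top_of_le_ne_top (measure_ball_lt_top (x := (0 : ℂ)) (r := 1)
        (μ := (volume : Measure ℂ))).ne (measure_mono inter_subset_left)
    have h5 : volume (ball (0 : ℂ) 1 ∩ B) ≤
        ε1 + (1 / 4 : ENNReal) * volume (ball (0 : ℂ) 1 ∩ B) := by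
      rw [← h4]
      refine le_trans (measure_mono ?_) ((measure_union_le (A0 ∩ B) _).trans
        (add_le_add h2 le_rfl))
      rintro u ⟨hu1, hu2⟩
      by_cases hu : u ∈ ball (0 : ℂ) (1 / 2)
      · exact Or.inr ⟨hu, hu2⟩
      · left
        refine ⟨?_, hu2⟩
        rw [hA0]
        exact ⟨hu1, hu⟩
    refine le_trans ?_ hε1e
    -- `m ≤ ε1 + m / 4` gives `m ≤ 2 ε1`
    generalize volume (ball (0 : ℂ) 1 ∩ B) = m at hm h5
    lift m to NNReal using hm
    lift ε1 to NNReal using hε1t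
    have h6 : (1 / 4 : ENNReal) = ((1 / 4 : NNReal) : ENNReal) := by
      rw [ENNReal.coe_div (by norm_num)]
      norm_num
    rw [h6] at h5
    norm_cast at h5 ⊢
    have h7 : (m : ℝ) ≤ (ε1 : ℝ) + 1 / 4 * (m : ℝ) := by exact_mod_cast h5
    have h8 : (m : ℝ) ≤ 2 * (ε1 : ℝ) := by
      have : (0 : ℝ) ≤ ε1 := ε1.2
      linarith
    exact_mod_cast h8

/-- `RobDir` is invariant under positive scaling -/
theorem rob_scale {d : ℕ} {v0 v : E d} {t : ℝ} (ht : 0 < t) (h : RobDir v0 (t⁻¹ • v)) :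
    RobDir v0 v := by
  intro z hz
  exact flt_scale ht (h z hz)

/-- a parabolic point with its normal form -/
structure ParPt {d : ℕ} (v0 : E d) (n : ℕ) (p a : ℂ) (q : ℕ) : Prop where
  hn : 0 < n
  hq : 1 ≤ q
  ha : a ≠ 0
  ex : ∃ (x : ℕ → ℂ) (k : ℂ → ℂ), x 0 = p ∧ Orb v0 x n ∧ x n = x 0 ∧ trD v0 n (x 0) = 1 ∧
    NF (fun u => it v0 n (x 0 + u) - x 0) k q a

/-- the compact sets of good directions for the perturbations `v0 + u ^ M • v`, for almost every `v` -/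
theorem par_dirs {d : ℕ} (hd : 2 ≤ d) {v0 : E d} (hcop : IsCoprime (pol v0.1) (pol v0.2))
    (hdeg : max (pol v0.1).natDegree (pol v0.2).natDegree = d) {n : ℕ} {Pa : Finset ℂ}
    {a : ℂ → ℂ} {q : ℂ → ℕ} (hPa : ∀ p ∈ Pa, ParPt v0 n p (a p) (q p)) (M : ℕ) :
    ∀ᵐ v : E d, ∀ ε : ENNReal, 0 < ε → ∃ K : Set ℂ, IsCompact K ∧ (∀ e ∈ K, ‖e‖ = 1) ∧
      (∀ e ∈ K, RobDir v0 (e ^ M • v) ∧ ∀ p ∈ Pa, SectDir v0 p (a p) (q p) (e ^ M • v)) ∧
      volume (ball (0 : ℂ) 1 ∩ {u : ℂ | u / (‖u‖ : ℂ) ∉ K}) ≤ ε := by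
  have h1 : volume {v : E d | ¬ (RobDir v0 v ∧ ∀ p ∈ Pa, SectDir v0 p (a p) (q p) v)} = 0 := by
    have h2 : {v : E d | ¬ (RobDir v0 v ∧ ∀ p ∈ Pa, SectDir v0 p (a p) (q p) v)} ⊆
        {v : E d | ¬ RobDir v0 v} ∪ ⋃ p ∈ Pa, {v : E d | ¬ SectDir v0 p (a p) (q p) v} := by
      intro v hv
      by_cases h3 : RobDir v0 v
      · right
        by_contra h4
        apply hv
        refine ⟨h3, fun p hp => ?_⟩
        by_contra h5
        exact h4 (mem_iUnion₂.2 ⟨p, hp, h5⟩)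
      · exact Or.inl h3
    refine measure_mono_null h2 (measure_union_null (rob_null hd hcop hdeg) ?_)
    refine (measure_biUnion_null_iff (Finset.countable_toSet Pa)).2 fun p hp => ?_
    obtain ⟨hn, hq, ha, x, k, rfl, ho, hx, hmul, hnf⟩ := hPa p hp
    exact sect_null hd hcop hdeg hn ho hx hmul hq ha hnf
  filter_upwards [Pool.Agent.H91.CE.rob_line h1 M] with v hv ε hε
  have hM : ∀ (η : ℂ) (t : ℝ), 0 < t → ((t : ℂ) * η) ^ M • v = (t ^ M) • (η ^ M • v) := by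
    intro η t ht
    rw [mul_pow, mul_smul, ← Complex.coe_smul, Complex.ofReal_pow]
  obtain ⟨K, hKc, hK, hKm⟩ := dir_exh (Q := fun η : ℂ => RobDir v0 (η ^ M • v) ∧
    ∀ p ∈ Pa, SectDir v0 p (a p) (q p) (η ^ M • v)) hv (fun η t ht h => by
      have h3 : ((t ^ M)⁻¹ : ℝ) • (((t : ℂ) * η) ^ M • v) = η ^ M • v := by
        rw [hM η t ht, smul_smul, inv_mul_cancel₀ (by positivity), one_smul]
      refine ⟨rob_scale (t := t ^ M) (by positivity) ?_, fun p hp =>
        sect_scale (t := t ^ M) (by positivity) ?_⟩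
      · rw [h3]
        exact h.1
      · rw [h3]
        exact h.2 p hp) hε
  exact ⟨K, hKc, fun e he => (hK e he).1, fun e he => (hK e he).2, hKm⟩

end Pool.Agent.H79.PB
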