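import Pool.Agent.H79.Par.GermOne
import Pool.Agent.H79.Par.GermZero

/-!
# The germ of a parabolic point with a persistent periodic point (`germ_one` with the rate of the periodic point)
-/

set_option autoImplicit false

open Filter Topology Polynomial Metric Set

namespace Pool.Agent.H79.PB

open Pool.Agent.H44.Fatou Pool.Agent.H32.BT Pool.Agent.H79.Eul Pool.Agent.H79.Par

private theorem germ_one_ep' {N : ℕ} (hN : 2 ≤ N) {h : ℝ} (hh : 0 < h) :
    h * (h ^ (1 / (N : ℝ))) ^ 1 = (h ^ (1 / (N : ℝ))) ^ (N + 1) := by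
  have hN' : (N : ℝ) ≠ 0 := by
    have : N ≠ 0 := by omega
    exact_mod_cast this
  have h1 : (h ^ (1 / (N : ℝ))) ^ N = h := by
    rw [← Real.rpow_natCast, ← Real.rpow_mul hh.le, one_div, inv_mul_cancel₀ hN', Real.rpow_one]
  rw [pow_one, pow_succ, h1]

theorem germ_one' {d : ℕ} {v0 v : E d} {x : ℕ → ℂ} {p m : ℕ} (hp : 0 < p) (hm : 0 < m)
    (hcop : ∀ᶠ w in 𝓝 v0, IsCoprime (pol w.1) (pol w.2)) (ho : Orb v0 x (p * m))
    (hx : x p = x 0) (hxx : x (p * m) = x 0) (hmul : trD v0 p (x 0) ≠ 1)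
    {N : ℕ} {a : ℂ} {k : ℂ → ℂ} (hN : 2 ≤ N)
    (hnf : NF (fun u => it v0 (p * m) (x 0 + u) - x 0) k N a) :
    ∃ (α : E d × ℝ → ℂ)
      (s : Germ (E d × ℝ) (flt v) N 1 a (deriv (XX v0 v (p * m)) (x 0))),
      Tendsto α (flt v) (𝓝 (x 0)) ∧ (∃ C : ℝ, ∀ᶠ τ in flt v, ‖α τ - x 0‖ ≤ C * τ.2) ∧
      (∀ τ, s.h τ = τ.2) ∧
      ∀ τ u, s.att τ u ↔ Att (Rf (pv v0 τ)) ((α τ + u : ℂ) : OnePoint ℂ) := by
  have hop : Orb v0 x p := fun j hj => ho j (lt_of_lt_of_le hj (Nat.le_mul_of_pos_right p hm))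
  obtain ⟨α0, hα0, hαc, hα⟩ := per_move hop hx hmul
  have h2 := trD_second ho hN hnf
  have hαl : Tendsto (fun τ : E d × ℝ => α0 (pv v0 τ)) (flt v) (𝓝 (x 0)) := by
    have h3 : Tendsto α0 (𝓝 v0) (𝓝 (α0 v0)) := hαc
    rw [hα0] at h3
    exact h3.comp (pv_lim v0 v)
  -- the map `(τ, u) ↦ (pv v0 τ, α τ + u)`
  have hl2 : Tendsto (fun y : (E d × ℝ) × ℂ => (pv v0 y.1, α0 (pv v0 y.1) + y.2))
      (flt v ×ˢ 𝓝 0) (𝓝 (v0, x 0)) := by
    rw [nhds_prod_eq]
    refine ((pv_lim v0 v).comp tendsto_fst).prodMk ?_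
    have h3 := (hαl.comp (tendsto_fst (f := flt v) (g := 𝓝 (0 : ℂ)))).add
      (tendsto_snd (f := flt v) (g := 𝓝 (0 : ℂ)))
    rw [add_zero] at h3
    exact h3
  have hN' : (N : ℝ) ≠ 0 := by
    have : N ≠ 0 := by omega
    exact_mod_cast this
  refine ⟨fun τ => α0 (pv v0 τ),
    { h := fun τ => τ.2
      ep := fun τ => τ.2 ^ (1 / (N : ℝ))
      F := fun τ u => it (pv v0 τ) (p * m) (α0 (pv v0 τ) + u) - α0 (pv v0 τ)
      att := fun τ u => Att (Rf (pv v0 τ)) ((α0 (pv v0 τ) + u : ℂ) : OnePoint ℂ)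
      ep_pos := ?_
      ep_lim := ?_
      h_ep := ?_
      ph := ?_
      hol := ?_
      step := ?_
      trap := ?_ }, hαl, ?_, fun τ => rfl, fun τ u => Iff.rfl⟩
  · filter_upwards [Pool.Agent.H79.Par.flt_pos v] with τ hτ
    exact Real.rpow_pos_of_pos hτ _
  · have h3 := (flt_lim v).rpow_const (p := 1 / (N : ℝ)) (Or.inr (by positivity))
    rw [Real.zero_rpow (by positivity)] at h3
    exact h3
  · filter_upwards [Pool.Agent.H79.Par.flt_pos v] with τ hτ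
    exact germ_one_ep' hN hτ
  · intro δ hδ
    have h3 := germ_one_ph (v := v) hm ho hx hmul h2 hα0 hαc hα hδ
    have h4 := (nf_est hnf hδ).prod_inr (flt v)
    filter_upwards [h3, h4] with y hy1 hy2
    have e : it (pv v0 y.1) (p * m) (α0 (pv v0 y.1) + y.2) - α0 (pv v0 y.1) - y.2 -
        (a * y.2 ^ (N + 1) + (y.1.2 : ℂ) * deriv (XX v0 v (p * m)) (x 0) * y.2 ^ 1) =
        ((it (pv v0 y.1) (p * m) (α0 (pv v0 y.1) + y.2) - α0 (pv v0 y.1)) -
        (it v0 (p * m) (x 0 + y.2) - x 0) -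
          (y.1.2 : ℂ) * deriv (XX v0 v (p * m)) (x 0) * y.2) +
        (it v0 (p * m) (x 0 + y.2) - x 0 - y.2 - a * y.2 ^ (N + 1)) := by ring
    rw [e]
    refine (norm_add_le _ _).trans ?_
    rw [pow_one]
    linarith
  · filter_upwards [hl2.eventually (orb_deriv ho)] with y hy
    have h3 : HasDerivAt (fun u => it (pv v0 y.1) (p * m) (α0 (pv v0 y.1) + u) - α0 (pv v0 y.1))
        (trD (pv v0 y.1) (p * m) (α0 (pv v0 y.1) + y.2)) y.2 :=
      (hy.comp_const_add (α0 (pv v0 y.1)) y.2).sub_const _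
    exact h3.differentiableAt
  · filter_upwards [hl2.eventually (it_step hcop ho)] with y hy
    intro h3
    apply hy
    rw [add_sub_cancel] at h3
    exact h3
  · obtain ⟨r, hr, h3⟩ := it_trap (Nat.mul_pos hp hm) ho
    refine ⟨r / 2, by positivity, ?_⟩
    have h4 : ∀ᶠ τ in flt v, ‖α0 (pv v0 τ) - x 0‖ < r / 2 := by
      have h5 := hαl.eventually (ball_mem_nhds (x 0) (half_pos hr))
      filter_upwards [h5] with τ hτ
      rwa [dist_eq_norm] at hτ
    filter_upwards [(pv_lim v0 v).eventually h3, h4] with τ hτ1 hτ2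
    intro c ρ q hρ hq0 hq1 hsub hmap hcon z hz
    obtain ⟨b, hb⟩ : ∃ b : ℂ, b = α0 (pv v0 τ) := ⟨_, rfl⟩
    rw [← hb] at hmap hcon hτ2 ⊢
    have hmem : ∀ w : ℂ, w ∈ closedBall (b + c) ρ → w - b ∈ closedBall c ρ := by
      intro w hw
      rw [mem_closedBall, dist_eq_norm] at hw ⊢
      rw [sub_sub]
      exact hw
    refine hτ1 (b + c) ρ q hρ hq0 hq1 ?_ ?_ ?_ (b + z) ?_
    · intro w hw
      have h5 := hsub (hmem w hw)
      rw [mem_ball, dist_zero_right] at h5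
      rw [mem_ball, dist_eq_norm]
      calc ‖w - x 0‖ = ‖(w - b) + (b - x 0)‖ := by rw [sub_add_sub_cancel]
        _ ≤ ‖w - b‖ + ‖b - x 0‖ := norm_add_le _ _
        _ < r / 2 + r / 2 := add_lt_add h5 hτ2
        _ = r := add_halves r
    · intro w hw
      have h5 := hmap _ (hmem w hw)
      rw [add_sub_cancel, mem_ball, dist_eq_norm] at h5
      rw [mem_ball, dist_eq_norm, ← sub_sub]
      exact h5
    · intro w hw w' hw'
      have h5 := hcon _ (hmem w hw) _ (hmem w' hw')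
      rw [add_sub_cancel, add_sub_cancel, sub_sub_sub_cancel_right, sub_sub_sub_cancel_right] at h5
      exact h5
    · rw [mem_closedBall, dist_eq_norm] at hz ⊢
      rw [add_sub_add_left_eq_sub]
      exact hz
  · have hr := (per_rate (v := v) hop hx hmul hα0 hαc hα).norm
    obtain ⟨C, hC⟩ : ∃ C : ℝ, C = ‖XX v0 v p (x 0) / (1 - trD v0 p (x 0))‖ + 1 := ⟨_, rfl⟩
    have h3 := hr.eventually (gt_mem_nhds (show ‖XX v0 v p (x 0) / (1 - trD v0 p (x 0))‖ < C by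
      rw [hC]; linarith))
    refine ⟨C, ?_⟩
    filter_upwards [h3, Pool.Agent.H79.Par.flt_pos v] with τ h4 h5
    rw [norm_div, Complex.norm_real, Real.norm_of_nonneg h5.le, div_lt_iff₀ h5] at h4
    exact h4.le

end Pool.Agent.H79.PB
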