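import Pool.Agent.H79.PB.Iter
import Pool.Agent.H79.Par.GermGood

/-!
# Perturbed parabolic points: the sector in the variable of the germ
-/

set_option autoImplicit false

open Filter Topology Polynomial Metric Set

namespace Pool.Agent.H79.PB

open Pool.Agent.H44.Fatou Pool.Agent.H32.BT Pool.Agent.H79.Eul Pool.Agent.H79.Par

/-- perturbation of a cone condition -/
theorem cone_pert {Z e : ℂ} {ε : ℝ} (hε : 0 < ε) (hε1 : ε ≤ 1) (he : ‖e‖ ≤ ε / 4)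
    (h : Z.re ≤ (1 - ε) * ‖Z‖) : (Z * (1 + e)).re ≤ (1 - ε / 4) * ‖Z * (1 + e)‖ := by
  have h0 := norm_nonneg Z
  have h1 : (Z * (1 + e)).re = Z.re + (Z * e).re := by
    rw [mul_add, mul_one, Complex.add_re]
  have h2 : (Z * e).re ≤ ‖Z‖ * (ε / 4) := by
    refine (Complex.re_le_norm _).trans ?_
    rw [norm_mul]
    exact mul_le_mul_of_nonneg_left he h0
  have h3 : (1 - ε / 4) * ‖Z‖ ≤ ‖Z * (1 + e)‖ := by
    rw [norm_mul, mul_comm]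
    refine mul_le_mul_of_nonneg_left ?_ h0
    have h4 := norm_sub_norm_le (1 : ℂ) (-e)
    rw [sub_neg_eq_add, norm_neg, norm_one] at h4
    linarith
  have h4 : (1 - ε / 4) * ((1 - ε / 4) * ‖Z‖) ≤ (1 - ε / 4) * ‖Z * (1 + e)‖ :=
    mul_le_mul_of_nonneg_left h3 (by linarith)
  have h5 : 0 ≤ (ε / 4 + ε ^ 2 / 16) * ‖Z‖ := by positivity
  rw [h1]
  nlinarith

/-- the same for the opposite sign -/
theorem cone_pert' {Z e : ℂ} {ε : ℝ} (hε : 0 < ε) (hε1 : ε ≤ 1) (he : ‖e‖ ≤ ε / 4)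
    (h : -(1 - ε) * ‖Z‖ ≤ Z.re) : -(1 - ε / 4) * ‖Z * (1 + e)‖ ≤ (Z * (1 + e)).re := by
  have h1 := cone_pert (Z := -Z) hε hε1 he (by rw [Complex.neg_re, norm_neg]; linarith)
  rw [neg_mul, Complex.neg_re, norm_neg] at h1
  linarith

/-- `w ↦ -1/(N a w)` turns the cones -/
theorem cone_inv {Z : ℂ} {N : ℕ} (hN : 1 ≤ N) (hZ : Z ≠ 0) {ε : ℝ}
    (h : Z.re ≤ (1 - ε) * ‖Z‖) : -(1 - ε) * ‖-(1 / (N * Z))‖ ≤ (-(1 / (N * Z))).re := by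
  have hN0 : (0 : ℝ) < N := by exact_mod_cast (by omega : 0 < N)
  have hn : 0 < Complex.normSq Z := Complex.normSq_pos.2 hZ
  have hZn : 0 < ‖Z‖ := norm_pos_iff.2 hZ
  have h1 : (-(1 / (N * Z))).re = -(Z.re / (N * Complex.normSq Z)) := by
    have e : (1 : ℂ) / (N * Z) = ((1 / N : ℝ) : ℂ) * Z⁻¹ := by
      push_cast
      rw [one_div, mul_inv, one_div]
    rw [Complex.neg_re, e, Complex.re_ofReal_mul, Complex.inv_re]
    field_simp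
  have h2 : ‖-(1 / (N * Z))‖ = ‖Z‖ / (N * Complex.normSq Z) := by
    rw [norm_neg, norm_div, norm_one, norm_mul, Complex.norm_natCast, Complex.normSq_eq_norm_sq]
    field_simp
  rw [h1, h2]
  have h3 : Z.re / (N * Complex.normSq Z) ≤ (1 - ε) * ‖Z‖ / (N * Complex.normSq Z) :=
    div_le_div_of_nonneg_right h (by positivity)
  have h4 : -(1 - ε) * (‖Z‖ / (N * Complex.normSq Z)) =
      -((1 - ε) * ‖Z‖ / (N * Complex.normSq Z)) := by ring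
  rw [h4]
  linarith

/-- all points of the sector at the scales between `K0 ep` and `r0` are attracted -/
theorem germ_sect {T : Type} {l : Filter T} {N κ : ℕ} {a β : ℂ} (hκ : κ ≤ 1)
    (hκN : κ + 1 ≤ N) (ha : a ≠ 0) (hβ : β ≠ 0) (s : Germ T l N κ a β)
    (hgen : ∃ s0 c : ℂ, GenAt N κ a β s0 c) {ε : ℝ} (hε : 0 < ε) (hε1 : ε ≤ 1) :
    ∃ r0 K0 : ℝ, 0 < r0 ∧ 0 < K0 ∧ ∀ᶠ τ in l, ∀ u : ℂ, K0 * s.ep τ ≤ ‖u‖ → ‖u‖ ≤ r0 →
      (a * u ^ N).re ≤ (1 - ε) * ‖a * u ^ N‖ → s.att τ u := by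
  obtain ⟨s0, c, hg⟩ := hgen
  have hg' := hg
  obtain ⟨hc, hV0, hV1, hG1, hNC0, -⟩ := hg'
  have hV1' : (derivative (Vp N κ a β)).eval s0 ≠ 0 := by
    intro h
    rw [h, Complex.zero_re] at hV1
    exact lt_irrefl _ hV1
  obtain ⟨hd, hlc⟩ := ph_deg hκN hc hV0 hV1'
  have hPz := ph_zero (β := β) (s0 := s0) hκN a hc
  have hPne : (Ph N κ a β s0 c).eval 0 ≠ 0 := by
    rw [hPz]
    exact neg_ne_zero.2 (mul_ne_zero ha (pow_ne_zero _ hc))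
  obtain ⟨f, -, -, hf⟩ := exists_fl hκN hc s (s0 := s0)
  obtain ⟨ρ, Φ, k, hp, hNC⟩ := exists_poleN (by omega) (ph_sq hκN ha hc (vp_sq hκ hκN ha hβ)) hd hPne
  have hNn : N ≠ 0 := by omega
  have hN0 : (N : ℂ) ≠ 0 := by exact_mod_cast hNn
  have hG : ∀ z ∈ ball (0 : ℂ) ρ, ∀ t : ℝ, 0 < t → Φ z = t → f.Good z := by
    intro z hz t ht hΦ
    refine good_level hκ hκN ha hβ s hg f hf ?_ (hp.hP z hz) (hNC 0 hNC0 z hz t ht hΦ)
    intro hz0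
    have h1 := hp.hk z hz
    rw [hΦ, hz0, zero_pow (by omega), zero_mul] at h1
    have : t = 0 := by exact_mod_cast h1
    linarith
  obtain ⟨ρ2, η, N0, C0, hρ2, hρ2ρ, hη, hN0', hC0, hΦ, hit⟩ :=
    sect_iter hκN ha hc s f hf hp hG (ε := ε / 4) (by positivity) (by linarith)
  have hk0 : k 0 ≠ 0 := by
    rw [hp.k0]
    exact div_ne_zero one_ne_zero (mul_ne_zero hN0 hPne)
  -- the factor `1 + e`
  have hfac : Tendsto (fun y : ℂ × ℂ => ((1 - y.1) ^ N)⁻¹ * (k y.2 / k 0)) (𝓝 ((0 : ℂ), (0 : ℂ)))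
      (𝓝 1) := by
    have h1 : Tendsto (fun y : ℂ × ℂ => (1 - y.1) ^ N) (𝓝 ((0 : ℂ), (0 : ℂ))) (𝓝 1) := by
      have h2 : Continuous (fun y : ℂ × ℂ => (1 - y.1) ^ N) := by fun_prop
      have h3 := h2.tendsto ((0 : ℂ), (0 : ℂ))
      simpa using h3
    have h2 : Tendsto (fun y : ℂ × ℂ => k y.2 / k 0) (𝓝 ((0 : ℂ), (0 : ℂ))) (𝓝 (k 0 / k 0)) := by
      have h3 : Tendsto (fun y : ℂ × ℂ => y.2) (𝓝 ((0 : ℂ), (0 : ℂ))) (𝓝 0) :=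
        continuous_snd.tendsto _
      exact (hp.kcont.tendsto.comp h3).div_const _
    rw [div_self hk0] at h2
    have h3 := (h1.inv₀ one_ne_zero).mul h2
    rwa [inv_one, one_mul] at h3
  obtain ⟨r1, hr1, hfac1⟩ := Metric.eventually_nhds_iff_ball.1
    (hfac.eventually (ball_mem_nhds (1 : ℂ) (show (0 : ℝ) < ε / 4 by positivity)))
  have hcn : 0 < ‖c‖ := norm_pos_iff.2 hc
  -- a bound for `‖w‖`
  obtain ⟨ν, hν, hνρ, hνr, hνη⟩ : ∃ ν : ℝ, 0 < ν ∧ ν < ρ2 ∧ ν < r1 ∧ C0 * ν ^ N ≤ η := by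
    have h1 : Tendsto (fun ν : ℝ => C0 * ν ^ N) (𝓝[>] 0) (𝓝 0) := by
      have h2 : Continuous (fun ν : ℝ => C0 * ν ^ N) := by fun_prop
      have h3 := h2.tendsto 0
      rw [zero_pow hNn, mul_zero] at h3
      exact h3.mono_left nhdsWithin_le_nhds
    have h4 : ∀ᶠ ν : ℝ in 𝓝[>] 0, ν < ρ2 := nhdsWithin_le_nhds (gt_mem_nhds hρ2)
    have h5 : ∀ᶠ ν : ℝ in 𝓝[>] 0, ν < r1 := nhdsWithin_le_nhds (gt_mem_nhds hr1)
    obtain ⟨ν, h6, h7, h8, h9⟩ :=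
      ((h1.eventually (gt_mem_nhds hη)).and (h4.and (h5.and self_mem_nhdsWithin))).exists
    exact ⟨ν, h9, h7, h8, h6.le⟩
  -- the constants
  obtain ⟨K0, hK0, hK1, hK2, hK3⟩ : ∃ K0 : ℝ, 0 < K0 ∧ 2 * ‖s0‖ ≤ K0 ∧ 2 * ‖c‖ ≤ ν * K0 ∧
      ‖s0‖ * 2 ≤ r1 * K0 := by
    refine ⟨1 + 2 * ‖s0‖ + 2 * ‖c‖ / ν + ‖s0‖ * 2 / r1, by positivity, ?_, ?_, ?_⟩
    · have h1 : 0 ≤ 2 * ‖c‖ / ν := by positivity
      have h2 : 0 ≤ ‖s0‖ * 2 / r1 := by positivity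
      linarith
    · have h2 : 0 ≤ ‖s0‖ * 2 / r1 := by positivity
      have h3 : ν * (2 * ‖c‖ / ν) = 2 * ‖c‖ := by field_simp
      have h4 : 0 ≤ ν * (1 + 2 * ‖s0‖ + ‖s0‖ * 2 / r1) := by positivity
      nlinarith
    · have h2 : 0 ≤ 2 * ‖c‖ / ν := by positivity
      have h3 : r1 * (‖s0‖ * 2 / r1) = ‖s0‖ * 2 := by field_simp
      have h4 : 0 ≤ r1 * (1 + 2 * ‖s0‖ + 2 * ‖c‖ / ν) := by positivity
      nlinarith
  obtain ⟨r0, hr0, hr0N⟩ : ∃ r0 : ℝ, 0 < r0 ∧ C0 * N0 * (2 * r0) ^ N ≤ ‖c‖ ^ N := by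
    have h1 : Tendsto (fun r : ℝ => C0 * N0 * (2 * r) ^ N) (𝓝[>] 0) (𝓝 0) := by
      have h2 : Continuous (fun r : ℝ => C0 * N0 * (2 * r) ^ N) := by fun_prop
      have h3 := h2.tendsto 0
      rw [mul_zero, zero_pow hNn, mul_zero] at h3
      exact h3.mono_left nhdsWithin_le_nhds
    obtain ⟨r, h6, h9⟩ := ((h1.eventually (gt_mem_nhds (show (0 : ℝ) < ‖c‖ ^ N by
      positivity))).and self_mem_nhdsWithin).exists
    exact ⟨r, h9, h6.le⟩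
  refine ⟨r0, K0, hr0, hK0, ?_⟩
  filter_upwards [hit, s.ep_pos] with τ h1 h2 u hu1 hu2 hu3
  have hepc : (s.ep τ : ℂ) ≠ 0 := by exact_mod_cast h2.ne'
  have hun : 0 < ‖u‖ := lt_of_lt_of_le (by positivity) hu1
  have hu0 : u ≠ 0 := norm_pos_iff.1 hun
  -- `u - ep s0`
  have hes : ‖(s.ep τ : ℂ) * s0‖ ≤ ‖u‖ / 2 := by
    rw [norm_mul, Complex.norm_real, Real.norm_of_nonneg h2.le]
    have h3 : s.ep τ * (2 * ‖s0‖) ≤ s.ep τ * K0 := mul_le_mul_of_nonneg_left hK1 h2.le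
    nlinarith
  obtain ⟨D, hD⟩ : ∃ D : ℂ, D = u - (s.ep τ : ℂ) * s0 := ⟨_, rfl⟩
  have hD1 : ‖u‖ / 2 ≤ ‖D‖ := by
    have h3 := norm_sub_norm_le u ((s.ep τ : ℂ) * s0)
    rw [← hD] at h3
    linarith
  have hD2 : ‖D‖ ≤ 2 * ‖u‖ := by
    have h3 := norm_sub_le u ((s.ep τ : ℂ) * s0)
    rw [← hD] at h3
    linarith
  have hDn : 0 < ‖D‖ := by linarith
  have hD0 : D ≠ 0 := norm_pos_iff.1 hDn
  obtain ⟨w, hw⟩ : ∃ w : ℂ, w = (s.ep τ : ℂ) * (c / D) := ⟨_, rfl⟩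
  have hwn : ‖w‖ = s.ep τ * (‖c‖ / ‖D‖) := by
    rw [hw, norm_mul, norm_div, Complex.norm_real, Real.norm_of_nonneg h2.le]
  have hw0 : w ≠ 0 := by
    rw [hw]
    exact mul_ne_zero hepc (div_ne_zero hc hD0)
  have hwν : ‖w‖ ≤ ν := by
    rw [hwn, ← mul_div_assoc, div_le_iff₀ hDn]
    have h3 : ν * (‖u‖ / 2) ≤ ν * ‖D‖ := mul_le_mul_of_nonneg_left hD1 hν.le
    have h4 : ν * (K0 * s.ep τ) ≤ ν * ‖u‖ := mul_le_mul_of_nonneg_left hu1 hν.le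
    have h5 : s.ep τ * (2 * ‖c‖) ≤ s.ep τ * (ν * K0) := mul_le_mul_of_nonneg_left hK2 h2.le
    nlinarith
  have hwb : w ∈ ball (0 : ℂ) ρ2 := by
    rw [mem_ball, dist_zero_right]
    linarith
  have hwb' : w ∈ ball (0 : ℂ) ρ := ball_subset_ball hρ2ρ hwb
  -- the value of `Φ`
  have hes1 : ‖(s.ep τ : ℂ) * s0 / u‖ < r1 := by
    rw [norm_div, div_lt_iff₀ hun, norm_mul, Complex.norm_real, Real.norm_of_nonneg h2.le]
    have h3 : r1 * (K0 * s.ep τ) ≤ r1 * ‖u‖ := mul_le_mul_of_nonneg_left hu1 hr1.le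
    have h4 : s.ep τ * (‖s0‖ * 2) ≤ s.ep τ * (r1 * K0) := mul_le_mul_of_nonneg_left hK3 h2.le
    have h5 : 0 < r1 * ‖u‖ := by positivity
    have h6 : 0 ≤ s.ep τ * ‖s0‖ := by positivity
    nlinarith
  have hmem : ((s.ep τ : ℂ) * s0 / u, w) ∈ ball ((0 : ℂ), (0 : ℂ)) r1 := by
    rw [mem_ball, Prod.dist_eq, dist_zero_right, dist_zero_right]
    exact max_lt hes1 (lt_of_le_of_lt hwν hνr)
  have he := hfac1 _ hmem
  rw [dist_eq_norm] at he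
  obtain ⟨e, hee⟩ : ∃ e : ℂ, e = ((1 - (s.ep τ : ℂ) * s0 / u) ^ N)⁻¹ * (k w / k 0) - 1 := ⟨_, rfl⟩
  have hen : ‖e‖ ≤ ε / 4 := by
    rw [hee]
    exact he.le
  have hDu : D = u * (1 - (s.ep τ : ℂ) * s0 / u) := by
    rw [hD]
    field_simp
  have h1u : (1 - (s.ep τ : ℂ) * s0 / u) ≠ 0 := by
    intro h
    rw [h, mul_zero] at hDu
    exact hD0 hDu
  have hΦw : Φ w = ((s.ep τ ^ N : ℝ) : ℂ) * (-(1 / (N * (a * u ^ N))) * (1 + e)) := by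
    have h3 : (1 : ℂ) + e = ((1 - (s.ep τ : ℂ) * s0 / u) ^ N)⁻¹ * (k w / k 0) := by
      rw [hee]; ring
    rw [h3, hp.hk w hwb', hw, mul_pow, div_pow]
    nth_rewrite 1 [hDu]
    rw [mul_pow, hp.k0, hPz]
    have h4 := pow_ne_zero N hc
    have h5 := pow_ne_zero N hu0
    have h6 := pow_ne_zero N h1u
    push_cast
    field_simp
  have hepN : 0 < s.ep τ ^ N := pow_pos h2 N
  have hWZ : a * u ^ N ≠ 0 := mul_ne_zero ha (pow_ne_zero _ hu0)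
  have hsect : -(1 - ε / 4) * ‖Φ w‖ ≤ (Φ w).re := by
    have h3 := cone_pert' hε hε1 hen (cone_inv (N := N) (by omega) hWZ hu3)
    rw [hΦw, norm_mul, Complex.norm_real, Real.norm_of_nonneg hepN.le, Complex.re_ofReal_mul]
    have h4 := mul_le_mul_of_nonneg_left h3 hepN.le
    calc _ = _ := by ring
      _ ≤ _ := h4
  have hlow : N0 * s.ep τ ^ N ≤ ‖Φ w‖ := by
    have h3 := (hΦ w hwb).1
    rw [hwn, mul_pow, div_pow] at h3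
    have h4 : ‖D‖ ^ N ≤ (2 * r0) ^ N := pow_le_pow_left₀ hDn.le (by linarith) N
    have h5 : C0 * N0 * ‖D‖ ^ N ≤ ‖c‖ ^ N :=
      (mul_le_mul_of_nonneg_left h4 (by positivity)).trans hr0N
    have h6 : C0 * N0 ≤ ‖c‖ ^ N / ‖D‖ ^ N := by
      rw [le_div_iff₀ (by positivity)]
      exact h5
    have h7 : s.ep τ ^ N * (C0 * N0) ≤ C0 * ‖Φ w‖ :=
      (mul_le_mul_of_nonneg_left h6 hepN.le).trans h3
    have h8 : C0 * (N0 * s.ep τ ^ N) ≤ C0 * ‖Φ w‖ := by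
      calc _ = _ := by ring
        _ ≤ _ := h7
    exact le_of_mul_le_mul_left h8 hC0
  have hup : ‖Φ w‖ ≤ η := by
    refine (hΦ w hwb).2.trans (le_trans ?_ hνη)
    exact mul_le_mul_of_nonneg_left (pow_le_pow_left₀ (norm_nonneg _) hwν N) hC0.le
  have h8 := h1 w hwb hlow hup hsect
  have h9 : (s.ep τ : ℂ) * (s0 + c / w) = u := by
    have h10 : c / w = D / (s.ep τ : ℂ) := by
      rw [hw]
      field_simp
    rw [h10, hD, mul_add, mul_div_cancel₀ _ hepc]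
    ring
  rwa [h9] at h8

end Pool.Agent.H79.PB
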