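import Pool.Agent.H79.Par.MacroStep
import Pool.Agent.H79.Par.MacroEnd

/-!
# Perturbed parabolic points: all directions outside the repelling cones

`sect_iter`: generalises `gm_iter` to the sector `Re Φ ≥ -(1 - ε) |Φ|`, `N0 t ≤ |Φ| ≤ η`.
-/

set_option autoImplicit false

open Filter Topology Polynomial Metric Set

namespace Pool.Agent.H79.PB

open Pool.Agent.H44.Fatou Pool.Agent.H32.BT Pool.Agent.H79.Eul Pool.Agent.H79.Par

/-- moving to the right in the sector -/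
theorem sect_low {z : ℂ} {ε s : ℝ} (hε : 0 < ε) (hε1 : ε ≤ 1) (hs : 0 ≤ s)
    (hz : -(1 - ε) * ‖z‖ ≤ z.re) : ε / 2 * (‖z‖ + s) ≤ ‖z + s‖ := by
  have h0 := norm_nonneg z
  have h1 : ‖z + s‖ ^ 2 = ‖z‖ ^ 2 + 2 * s * z.re + s ^ 2 := by
    rw [← Complex.normSq_eq_norm_sq, ← Complex.normSq_eq_norm_sq, Complex.normSq_apply,
      Complex.normSq_apply]
    simp only [Complex.add_re, Complex.ofReal_re, Complex.add_im, Complex.ofReal_im, add_zero]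
    ring
  have h2 : (ε / 2 * (‖z‖ + s)) ^ 2 ≤ ‖z + s‖ ^ 2 := by
    rw [h1]
    have h3 : 2 * s * (-(1 - ε) * ‖z‖) ≤ 2 * s * z.re :=
      mul_le_mul_of_nonneg_left hz (by positivity)
    have h4 : 0 ≤ (1 - ε) * (‖z‖ - s) ^ 2 := mul_nonneg (by linarith) (sq_nonneg _)
    have h5 : 0 ≤ (‖z‖ - s) ^ 2 := sq_nonneg _
    have h6 : (ε / 2 * (‖z‖ + s)) ^ 2 ≤ ε * (‖z‖ ^ 2 + s ^ 2) := by
      have h7 : (ε / 2 * (‖z‖ + s)) ^ 2 = ε * (ε * ((‖z‖ + s) ^ 2 / 4)) := by ring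
      rw [h7]
      refine mul_le_mul_of_nonneg_left ?_ hε.le
      have h8 : (‖z‖ + s) ^ 2 / 4 ≤ ‖z‖ ^ 2 + s ^ 2 := by nlinarith
      have h9 : 0 ≤ (‖z‖ + s) ^ 2 / 4 := by positivity
      nlinarith
    nlinarith
  exact (pow_le_pow_iff_left₀ (by positivity) (norm_nonneg _) (by norm_num : (2 : ℕ) ≠ 0)).1 h2

theorem sect_iter {T : Type} {l : Filter T} {N κ : ℕ} {a β s0 c : ℂ} (hκN : κ + 1 ≤ N)
    (ha : a ≠ 0) (hc : c ≠ 0) (s : Germ T l N κ a β)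
    (f : Fl T l (Ph N κ a β s0 c) (X ^ (N - 1)))
    (hf : ∀ τ w, f.att τ w ↔ s.att τ ((s.ep τ : ℂ) * (s0 + c / w)))
    {ρ : ℝ} {Φ k : ℂ → ℂ} (hp : PoleN (Ph N κ a β s0 c) N ρ Φ k)
    (hG : ∀ z ∈ ball (0 : ℂ) ρ, ∀ t : ℝ, 0 < t → Φ z = t → f.Good z)
    {ε : ℝ} (hε : 0 < ε) (hε1 : ε ≤ 1) :
    ∃ ρ2 η N0 C0 : ℝ, 0 < ρ2 ∧ ρ2 ≤ ρ ∧ 0 < η ∧ 0 < N0 ∧ 0 < C0 ∧
      (∀ w ∈ ball (0 : ℂ) ρ2, ‖w‖ ^ N ≤ C0 * ‖Φ w‖ ∧ ‖Φ w‖ ≤ C0 * ‖w‖ ^ N) ∧
      ∀ᶠ τ in l, ∀ w ∈ ball (0 : ℂ) ρ2, N0 * s.ep τ ^ N ≤ ‖Φ w‖ → ‖Φ w‖ ≤ η →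
        -(1 - ε) * ‖Φ w‖ ≤ (Φ w).re → s.att τ ((s.ep τ : ℂ) * (s0 + c / w)) := by
  obtain ⟨ρ1, C0, hρ1, hρ12, hC0, hΦ, hstep⟩ := gm_step hκN ha hc s hp
  have hN1 : N ≠ 0 := by omega
  have ht0' : ∃ t0 : ℝ, 0 < t0 ∧ C0 * (4 * t0) = (ρ1 / 2) ^ N := by
    refine ⟨(ρ1 / 2) ^ N / (4 * C0), by positivity, ?_⟩
    field_simp
  obtain ⟨t0, ht0, ht0e⟩ := ht0'
  obtain ⟨η', hη', hend⟩ := gm_end f hp hG (r := ρ1 / 2) (t0 := t0) (by linarith) ht0
  obtain ⟨δ, hδ, hδε, hδ4, hδt⟩ : ∃ δ : ℝ, 0 < δ ∧ δ ≤ ε / 4 ∧ δ ≤ 1 / 4 ∧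
      δ * (2 * t0) ≤ η' / 4 := by
    refine ⟨min (ε / 4) (min (1 / 4) (η' / (8 * t0))), by positivity, min_le_left _ _,
      (min_le_right _ _).trans (min_le_left _ _), ?_⟩
    calc min (ε / 4) (min (1 / 4) (η' / (8 * t0))) * (2 * t0) ≤ (η' / (8 * t0)) * (2 * t0) :=
          mul_le_mul_of_nonneg_right ((min_le_right _ _).trans (min_le_right _ _)) (by positivity)
      _ = η' / 4 := by field_simp; norm_num
  obtain ⟨N1, hN1', hst⟩ := hstep δ hδ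
  obtain ⟨η, hη, hηt, hηη⟩ : ∃ η : ℝ, 0 < η ∧ η ≤ t0 ∧ η ≤ η' / 4 :=
    ⟨min t0 (η' / 4), by positivity, min_le_left _ _, min_le_right _ _⟩
  have hmono : ball (0 : ℂ) (ρ1 / 2) ⊆ ball (0 : ℂ) ρ1 := ball_subset_ball (by linarith)
  refine ⟨ρ1 / 2, η, 4 * N1 / ε, C0, by positivity, by linarith, hη, by positivity, hC0,
    fun w hw => hΦ w (hmono hw), ?_⟩
  have hsm : ∀ᶠ τ in l, s.ep τ ^ N ≤ min t0 (η' / 4) := by
    have h1 : Tendsto (fun τ => s.ep τ ^ N) l (𝓝 (0 ^ N)) := s.ep_lim.pow N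
    rw [zero_pow hN1] at h1
    have h2 : (0 : ℝ) < min t0 (η' / 4) := by positivity
    exact (h1.eventually_lt_const h2).mono fun τ h => h.le
  filter_upwards [hst, hend, s.ep_pos, hsm] with τ h1 h2 h4' h5
  intro z hz hzN hzη hzre
  obtain ⟨t, ht⟩ : ∃ t : ℝ, t = s.ep τ ^ N := ⟨_, rfl⟩
  rw [← ht] at h1 h5 hzN
  have h4 : 0 < t := by rw [ht]; positivity
  obtain ⟨g, hg⟩ : ∃ g : ℂ → ℂ, g = s.gw s0 c τ := ⟨_, rfl⟩
  rw [← hg] at h1
  have h5b : t ≤ η' / 4 := h5.trans (min_le_right _ _)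
  have hN1t : N1 * t ≤ ε / 4 * ‖Φ z‖ := by
    have h6 := mul_le_mul_of_nonneg_left hzN (by positivity : (0 : ℝ) ≤ ε / 4)
    calc N1 * t = ε / 4 * (4 * N1 / ε * t) := by field_simp
      _ ≤ _ := h6
  obtain ⟨S, hS⟩ : ∃ S : ℝ, S = t0 - (Φ z).re := ⟨_, rfl⟩
  have hzre2 : |(Φ z).re| ≤ η := (Complex.abs_re_le_norm _).trans hzη
  have hzim2 : |(Φ z).im| ≤ η := (Complex.abs_im_le_norm _).trans hzη
  have hS0 : 0 ≤ S := by
    have := (abs_le.1 hzre2).2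
    linarith
  have hS1 : S ≤ t0 + η := by
    have := (abs_le.1 hzre2).1
    linarith
  have key : ∀ n : ℕ, n * t ≤ S →
      ‖g^[n] z‖ ≤ ρ1 / 2 ∧ ‖Φ (g^[n] z) - Φ z - n * t‖ ≤ n * t * δ ∧
        (s.att τ ((s.ep τ : ℂ) * (s0 + c / g^[n] z)) →
          s.att τ ((s.ep τ : ℂ) * (s0 + c / z))) := by
    intro n
    induction n with
    | zero =>
      intro _
      refine ⟨?_, ?_, ?_⟩
      · rw [Function.iterate_zero, id]
        have := mem_ball.mp hz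
        rw [dist_eq_norm, sub_zero] at this
        exact this.le
      · simp
      · simp
    | succ n ih =>
      intro hn
      have hn1 : (n : ℝ) * t ≤ S := by
        push_cast at hn
        linarith
      obtain ⟨i1, i2, i3⟩ := ih hn1
      obtain ⟨w, hw⟩ : ∃ w : ℂ, w = g^[n] z := ⟨_, rfl⟩
      rw [← hw] at i1 i2 i3
      have hnn : (0 : ℝ) ≤ n * t := by positivity
      have hwK : N1 * t ≤ ‖Φ w‖ := by
        have h6 := sect_low hε hε1 hnn hzre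
        have h7 : ‖Φ z + ((n * t : ℝ) : ℂ)‖ ≤ ‖Φ w‖ + ‖Φ w - Φ z - n * t‖ := by
          have e : Φ z + ((n * t : ℝ) : ℂ) = Φ w - (Φ w - Φ z - n * t) := by
            push_cast
            ring
          rw [e]
          exact norm_sub_le _ _
        have h8 : n * t * δ ≤ n * t * (ε / 4) := mul_le_mul_of_nonneg_left hδε hnn
        have h9 : 0 ≤ n * t * (ε / 4) := by positivity
        have h10 : ε / 4 * ‖Φ z‖ ≤ ‖Φ w‖ := by
          have h11 : 0 ≤ ε * ‖Φ z‖ := by positivity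
          nlinarith
        exact hN1t.trans h10
      have hwball : w ∈ ball (0 : ℂ) ρ1 := by
        rw [mem_ball, dist_eq_norm, sub_zero]
        linarith
      obtain ⟨j2, j3, j1⟩ := h1 w hwball hwK
      have hit : g^[n + 1] z = g w := by
        rw [Function.iterate_succ_apply', hw]
      rw [hit]
      have k2 : ‖Φ (g w) - Φ z - ((n + 1 : ℕ) : ℂ) * t‖ ≤ ((n + 1 : ℕ) : ℝ) * t * δ := by
        have e : Φ (g w) - Φ z - ((n + 1 : ℕ) : ℂ) * t =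
            (Φ (g w) - Φ w - t) + (Φ w - Φ z - n * t) := by
          push_cast
          ring
        rw [e]
        refine (norm_add_le _ _).trans ?_
        push_cast
        linarith
      have hwball' : ‖g w‖ < ρ1 := by
        have e : g w = (g w - w) + w := by ring
        rw [e]
        refine lt_of_le_of_lt (norm_add_le _ _) ?_
        linarith
      have hnΦ : ‖Φ (g w)‖ ≤ 4 * t0 := by
        have e : Φ (g w) = (Φ (g w) - Φ z - ((n + 1 : ℕ) : ℂ) * t) + Φ z +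
            ((n + 1 : ℕ) : ℂ) * t := by ring
        have e2 : ‖((n + 1 : ℕ) : ℂ) * (t : ℂ)‖ = ((n + 1 : ℕ) : ℝ) * t := by
          rw [norm_mul, Complex.norm_natCast, Complex.norm_real, Real.norm_of_nonneg h4.le]
        have hnn' : (0 : ℝ) ≤ ((n + 1 : ℕ) : ℝ) * t := by positivity
        have e3 : ((n + 1 : ℕ) : ℝ) * t * δ ≤ ((n + 1 : ℕ) : ℝ) * t * (1 / 4) :=
          mul_le_mul_of_nonneg_left hδ4 hnn'
        rw [e]
        refine (norm_add₃_le).trans ?_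
        rw [e2]
        linarith
      have hball2 : ‖g w‖ ≤ ρ1 / 2 := by
        have k3 := (hΦ (g w) (by rw [mem_ball, dist_eq_norm, sub_zero]; exact hwball')).1
        have k4 : ‖g w‖ ^ N ≤ (ρ1 / 2) ^ N := by
          refine k3.trans ?_
          rw [← ht0e]
          exact mul_le_mul_of_nonneg_left hnΦ hC0.le
        exact (pow_le_pow_iff_left₀ (norm_nonneg _) (by positivity) hN1).mp k4
      exact ⟨hball2, k2, fun hatt => i3 (j1 hatt)⟩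
  obtain ⟨n, hn⟩ : ∃ n : ℕ, n = ⌊S / t⌋₊ := ⟨_, rfl⟩
  have hn1 : (n : ℝ) * t ≤ S := by
    have := Nat.floor_le (show 0 ≤ S / t by positivity)
    rw [← hn] at this
    rwa [le_div_iff₀ h4] at this
  have hn2 : S < ((n : ℝ) + 1) * t := by
    have := Nat.lt_floor_add_one (S / t)
    rw [← hn] at this
    rwa [div_lt_iff₀ h4] at this
  obtain ⟨k1, k2, k3⟩ := key n hn1
  apply k3
  rw [← hf]
  apply h2
  · rw [mem_closedBall, dist_eq_norm, sub_zero]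
    exact k1
  · have e : Φ (g^[n] z) - t0 = (Φ (g^[n] z) - Φ z - n * t) + (Φ z - ((Φ z).re : ℂ)) +
        (((n * t - S : ℝ)) : ℂ) := by
      rw [hS]
      push_cast
      ring
    rw [e]
    refine lt_of_le_of_lt (norm_add₃_le) ?_
    have e2 : ‖(((n * t - S : ℝ)) : ℂ)‖ ≤ t := by
      rw [Complex.norm_real, Real.norm_eq_abs, abs_le]
      constructor <;> linarith
    have e4 : ‖Φ z - ((Φ z).re : ℂ)‖ ≤ η := by
      have e5 : Φ z - ((Φ z).re : ℂ) = ((Φ z).im : ℂ) * Complex.I := by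
        apply Complex.ext <;> simp
      rw [e5, norm_mul, Complex.norm_I, mul_one, Complex.norm_real, Real.norm_eq_abs]
      exact hzim2
    have e3 : n * t * δ ≤ η' / 4 := by
      calc n * t * δ ≤ (2 * t0) * δ := mul_le_mul_of_nonneg_right (by linarith) hδ.le
        _ = δ * (2 * t0) := by ring
        _ ≤ η' / 4 := hδt
    linarith

end Pool.Agent.H79.PB
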