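import Pool.Agent.H79.PB.GermSect
import Pool.Agent.H79.PB.GermOneR
import Pool.Agent.H79.Par.CycNull
import Pool.Agent.H79.Par.PerFin
import Pool.Agent.H79.Par.BasinRe

/-!
# Perturbed parabolic points: the theorem for almost every direction

`SectDir v0 p a q v`: in the direction `v` the points `p + y` with `K0 τ.2 ^ (1/(q+1)) ≤ ‖y‖ ≤ r0` outside the
`ε`-cones of the repelling directions are attracted by sinks of the perturbed maps. `sect_null`: this holds for almost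
every direction `v`.
-/

set_option autoImplicit false

open Filter Topology Polynomial Metric Set

namespace Pool.Agent.H79.PB

open Pool.Agent.H44.Fatou Pool.Agent.H32.BT Pool.Agent.H79.Eul Pool.Agent.H79.Par

/-- in the direction `v` the points near `p` outside the cones of the repelling directions are attracted by sinks of
the perturbed maps, down to the scale `τ.2 ^ (1/(q+1))` -/
def SectDir {d : ℕ} (v0 : E d) (p a : ℂ) (q : ℕ) (v : E d) : Prop :=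
  ∀ ε : ℝ, 0 < ε → ∃ r0 K0 : ℝ, 0 < r0 ∧ 0 < K0 ∧ ∀ᶠ τ in flt v, ∀ y : ℂ,
    K0 * τ.2 ^ (((q + 1 : ℕ) : ℝ)⁻¹) ≤ ‖y‖ → ‖y‖ ≤ r0 →
      (a * y ^ q).re ≤ (1 - ε) * ‖a * y ^ q‖ → Att (Rf (pv v0 τ)) ((p + y : ℂ) : OnePoint ℂ)

theorem sect_of_le_one {d : ℕ} {v0 : E d} {p a : ℂ} {q : ℕ} {v : E d}
    (h : ∀ ε : ℝ, 0 < ε → ε ≤ 1 → ∃ r0 K0 : ℝ, 0 < r0 ∧ 0 < K0 ∧ ∀ᶠ τ in flt v, ∀ y : ℂ,
      K0 * τ.2 ^ (((q + 1 : ℕ) : ℝ)⁻¹) ≤ ‖y‖ → ‖y‖ ≤ r0 →
        (a * y ^ q).re ≤ (1 - ε) * ‖a * y ^ q‖ →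
          Att (Rf (pv v0 τ)) ((p + y : ℂ) : OnePoint ℂ)) : SectDir v0 p a q v := by
  intro ε hε
  obtain ⟨r0, K0, hr0, hK0, hev⟩ := h (min ε 1) (lt_min hε one_pos) (min_le_right _ _)
  refine ⟨r0, K0, hr0, hK0, ?_⟩
  filter_upwards [hev] with τ hτ y h1 h2 h3
  refine hτ y h1 h2 (h3.trans ?_)
  have h4 : (1 - ε) ≤ 1 - min ε 1 := by
    have := min_le_left ε 1
    linarith
  exact mul_le_mul_of_nonneg_right h4 (norm_nonneg _)

/-- the scaling of the direction -/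
theorem flt_scale_map {d : ℕ} {v : E d} {t : ℝ} (ht : 0 < t) :
    Tendsto (fun w : E d × ℝ => (t⁻¹ • w.1, t * w.2)) (flt v) (flt (t⁻¹ • v)) := by
  refine Tendsto.prodMk ?_ ?_
  · have h2 : Tendsto (fun w : E d × ℝ => w.1) (flt v) (𝓝 v) := tendsto_fst
    exact h2.const_smul t⁻¹
  · have h2 : Tendsto (fun w : E d × ℝ => w.2) (flt v) (𝓝[>] (0 : ℝ)) := tendsto_snd
    have h3 : Tendsto (fun s : ℝ => t * s) (𝓝[>] (0 : ℝ)) (𝓝[>] (0 : ℝ)) := by
      refine tendsto_nhdsWithin_iff.2 ⟨?_, ?_⟩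
      · have h4 : Tendsto (fun s : ℝ => t * s) (𝓝 (0 : ℝ)) (𝓝 (t * 0)) :=
          (continuous_const.mul continuous_id).tendsto 0
        rw [mul_zero] at h4
        exact h4.mono_left nhdsWithin_le_nhds
      · filter_upwards [self_mem_nhdsWithin] with s hs
        exact mul_pos ht hs
    exact h3.comp h2

theorem pv_scale {d : ℕ} (v0 : E d) {t : ℝ} (ht : 0 < t) (w : E d × ℝ) :
    pv v0 (t⁻¹ • w.1, t * w.2) = pv v0 w := by
  unfold pv
  rw [smul_smul]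
  congr 2
  field_simp

theorem sect_scale {d : ℕ} {v0 : E d} {p a : ℂ} {q : ℕ} {v : E d} {t : ℝ} (ht : 0 < t)
    (h : SectDir v0 p a q (t⁻¹ • v)) : SectDir v0 p a q v := by
  intro ε hε
  obtain ⟨r0, K0, hr0, hK0, hev⟩ := h ε hε
  refine ⟨r0, K0 * t ^ (((q + 1 : ℕ) : ℝ)⁻¹), hr0, by positivity, ?_⟩
  filter_upwards [(flt_scale_map ht).eventually hev, Pool.Agent.H79.Par.flt_pos v]
    with τ hτ hpos y h1 h2 h3
  rw [pv_scale v0 ht] at hτ
  refine hτ y ?_ h2 h3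
  rw [Real.mul_rpow ht.le hpos.le, ← mul_assoc]
  exact h1

/-- the case of a persistent multiplier one -/
theorem sect_zero {d : ℕ} {v0 v : E d} {x : ℕ → ℂ} {n : ℕ} (hn : 0 < n)
    (hcop : ∀ᶠ w in 𝓝 v0, IsCoprime (pol w.1) (pol w.2)) (ho : Orb v0 x n) (hx : x n = x 0)
    {N : ℕ} {a : ℂ} {k : ℂ → ℂ} (hN : 1 ≤ N) (ha : a ≠ 0)
    (hnf : NF (fun u => it v0 n (x 0 + u) - x 0) k N a)
    (hβ : XX v0 v n (x 0) ≠ 0) (hgen : ∃ s0 c : ℂ, GenAt N 0 a (XX v0 v n (x 0)) s0 c) :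
    SectDir v0 (x 0) a N v := by
  refine sect_of_le_one fun ε hε hε1 => ?_
  obtain ⟨s, hh, hatt⟩ := germ_zero (v := v) hn hcop ho hx hN hnf
  obtain ⟨r0, K0, hr0, hK0, hev⟩ := germ_sect (by omega) (by omega) ha hβ s hgen hε hε1
  refine ⟨r0, K0, hr0, hK0, ?_⟩
  filter_upwards [hev, s.ep_pos, s.h_ep] with τ h1 h2 h3 y h4 h5 h6
  rw [pow_zero, mul_one, hh] at h3
  have h7 : τ.2 ^ (((N + 1 : ℕ) : ℝ)⁻¹) = s.ep τ := by
    rw [h3]
    exact Real.pow_rpow_inv_natCast h2.le (Nat.succ_ne_zero N)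
  rw [h7] at h4
  exact (hatt τ y).1 (h1 y h4 h5 h6)

/-- the case of a persistent periodic point -/
theorem sect_one {d : ℕ} {v0 v : E d} {x : ℕ → ℂ} {p m : ℕ} (hp : 0 < p) (hm : 0 < m)
    (hcop : ∀ᶠ w in 𝓝 v0, IsCoprime (pol w.1) (pol w.2)) (ho : Orb v0 x (p * m))
    (hx : x p = x 0) (hxx : x (p * m) = x 0) (hmul : trD v0 p (x 0) ≠ 1)
    {N : ℕ} {a : ℂ} {k : ℂ → ℂ} (hN : 2 ≤ N) (ha : a ≠ 0)
    (hnf : NF (fun u => it v0 (p * m) (x 0 + u) - x 0) k N a)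
    (hβ : deriv (XX v0 v (p * m)) (x 0) ≠ 0)
    (hgen : ∃ s0 c : ℂ, GenAt N 1 a (deriv (XX v0 v (p * m)) (x 0)) s0 c) :
    SectDir v0 (x 0) a N v := by
  refine sect_of_le_one fun ε hε hε1 => ?_
  obtain ⟨α, s, -, ⟨C, hC⟩, hh, hatt⟩ := germ_one' (v := v) hp hm hcop ho hx hxx hmul hN hnf
  obtain ⟨r1, K1, hr1, hK1, hev⟩ := germ_sect le_rfl (by omega) ha hβ s hgen
    (ε := ε / 4) (by positivity) (by linarith)
  have hNn : N ≠ 0 := by omega
  -- the factor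
  obtain ⟨δ, hδ, hδ2, hδe⟩ : ∃ δ : ℝ, 0 < δ ∧ δ ≤ 1 / 2 ∧
      ∀ e : ℂ, ‖e‖ < δ → ‖(1 + e) ^ N - 1‖ ≤ ε / 4 := by
    have h1 : Continuous (fun e : ℂ => (1 + e) ^ N - 1) := by fun_prop
    have h2 := h1.tendsto 0
    rw [add_zero, one_pow, sub_self] at h2
    obtain ⟨δ, hδ, hb⟩ := Metric.eventually_nhds_iff_ball.1
      (h2.eventually (ball_mem_nhds (0 : ℂ) (show (0 : ℝ) < ε / 4 by positivity)))
    refine ⟨min δ (1 / 2), by positivity, min_le_right _ _, fun e he => ?_⟩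
    have h4 := hb e (by
      rw [mem_ball, dist_zero_right]
      exact lt_of_lt_of_le he (min_le_left _ _))
    rw [dist_zero_right] at h4
    exact h4.le
  have hE : Tendsto (fun τ : E d × ℝ => τ.2 ^ (((N + 1 : ℕ) : ℝ)⁻¹)) (flt v) (𝓝 0) :=
    gz_ep_lim v (by omega)
  have hE1 : ∀ᶠ τ : E d × ℝ in flt v, τ.2 ^ (((N + 1 : ℕ) : ℝ)⁻¹) < 1 :=
    hE.eventually (gt_mem_nhds one_pos)
  have hE2 : ∀ᶠ τ : E d × ℝ in flt v,
      (|C| + 1) * (τ.2 ^ (((N + 1 : ℕ) : ℝ)⁻¹)) ^ N < δ * (2 * K1) := by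
    have h1 := (hE.pow N).const_mul (|C| + 1)
    rw [zero_pow hNn, mul_zero] at h1
    exact h1.eventually (gt_mem_nhds (by positivity))
  refine ⟨r1 / 2, 2 * K1, by positivity, by positivity, ?_⟩
  filter_upwards [hev, s.ep_pos, s.h_ep, hC, hE1, hE2, Pool.Agent.H79.Par.flt_pos v]
    with τ h1 h2 h3 hC' h8 h9 hpos y h4 h5 h6
  rw [pow_one, hh] at h3
  obtain ⟨E0, hE0⟩ : ∃ E0 : ℝ, E0 = τ.2 ^ (((N + 1 : ℕ) : ℝ)⁻¹) := ⟨_, rfl⟩
  rw [← hE0] at h4 h8 h9
  have hE0p : 0 < E0 := by rw [hE0]; positivity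
  have hE0N : E0 ^ (N + 1) = τ.2 := by
    rw [hE0]
    exact Real.rpow_inv_natCast_pow hpos.le (Nat.succ_ne_zero N)
  have hepN : s.ep τ ^ N = τ.2 := by
    have h10 : s.ep τ * s.ep τ ^ N = s.ep τ * τ.2 := by
      rw [← pow_succ', ← h3, mul_comm]
    exact mul_left_cancel₀ h2.ne' h10
  have hepE : s.ep τ ≤ E0 := by
    have h10 : s.ep τ ^ N ≤ E0 ^ N := by
      rw [hepN, ← hE0N]
      exact pow_le_pow_of_le_one hE0p.le h8.le (by omega)
    exact (pow_le_pow_iff_left₀ h2.le hE0p.le hNn).1 h10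
  have hyn : 0 < ‖y‖ := lt_of_lt_of_le (by positivity) h4
  have hy0 : y ≠ 0 := norm_pos_iff.1 hyn
  obtain ⟨e, he⟩ : ∃ e : ℂ, e = (x 0 - α τ) / y := ⟨_, rfl⟩
  have hu : x 0 + y - α τ = y * (1 + e) := by
    rw [he]
    field_simp
    ring
  have hen : ‖e‖ < δ := by
    rw [he, norm_div, div_lt_iff₀ hyn, norm_sub_rev]
    have h10 : C * τ.2 ≤ (|C| + 1) * E0 ^ N * E0 := by
      rw [← hE0N, mul_assoc, ← pow_succ]
      refine mul_le_mul_of_nonneg_right ?_ (by positivity)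
      have := le_abs_self C
      linarith
    have h11 : (|C| + 1) * E0 ^ N * E0 < δ * (2 * K1) * E0 := mul_lt_mul_of_pos_right h9 hE0p
    have h12 : δ * (2 * K1) * E0 ≤ δ * ‖y‖ := by
      rw [mul_assoc]
      exact mul_le_mul_of_nonneg_left h4 hδ.le
    linarith
  have hu1 : ‖y‖ / 2 ≤ ‖x 0 + y - α τ‖ := by
    rw [hu, norm_mul]
    have h10 := norm_sub_norm_le (1 : ℂ) (-e)
    rw [sub_neg_eq_add, norm_neg, norm_one] at h10
    have h11 : 1 / 2 ≤ ‖1 + e‖ := by linarith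
    nlinarith
  have hu2 : ‖x 0 + y - α τ‖ ≤ 2 * ‖y‖ := by
    rw [hu, norm_mul]
    have h10 := norm_add_le (1 : ℂ) e
    rw [norm_one] at h10
    have h11 : ‖1 + e‖ ≤ 2 := by linarith
    nlinarith
  have h12 := h1 (x 0 + y - α τ) ?_ ?_ ?_
  · have h13 := (hatt τ _).1 h12
    rw [add_sub_cancel] at h13
    exact h13
  · have h13 : K1 * s.ep τ ≤ K1 * E0 := mul_le_mul_of_nonneg_left hepE hK1.le
    linarith
  · linarith
  · have h13 : a * (x 0 + y - α τ) ^ N = a * y ^ N * (1 + ((1 + e) ^ N - 1)) := by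
      rw [hu, mul_pow]
      ring
    rw [h13]
    exact cone_pert hε hε1 (hδe e hen) h6

open MeasureTheory in
/-- a property of directions which depends only on the argument of a linear functional -/
theorem dir_cover {d : ℕ} {Q : E d → Prop} (L : E d → ℂ)
    (hadd : ∀ v w, L (v + w) = L v + L w) (hsmul : ∀ (c : ℂ) (v : E d), L (c • v) = c * L v)
    (hne : ∃ v, L v ≠ 0) {bad : Set ℝ} (hbad : bad.Countable)
    (hsc : ∀ (v : E d) (t : ℝ), 0 < t → Q (t⁻¹ • v) → Q v)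
    (h : ∀ φ : ℝ, φ ∉ bad → ∀ v : E d, L v = Complex.exp (φ * Complex.I) → Q v) :
    volume {v : E d | ¬ Q v} = 0 := by
  have hsub : {v : E d | ¬ Q v} ⊆ {v : E d | L v = 0} ∪
      ⋃ φ ∈ bad, {v : E d | (Complex.exp (-(φ * Complex.I)) * L v).im = 0} := by
    intro v hv
    by_cases h0 : L v = 0
    · exact Or.inl h0
    · right
      have ht : 0 < ‖L v‖ := norm_pos_iff.2 h0
      have hpol : L v = (‖L v‖ : ℂ) * Complex.exp (Complex.arg (L v) * Complex.I) :=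
        (Complex.norm_mul_exp_arg_mul_I (L v)).symm
      by_cases hb : Complex.arg (L v) ∈ bad
      · refine mem_iUnion₂.2 ⟨_, hb, ?_⟩
        show (Complex.exp (-((Complex.arg (L v) : ℝ) * Complex.I)) * L v).im = 0
        have h1 : Complex.exp (-((Complex.arg (L v) : ℝ) * Complex.I)) * L v = (‖L v‖ : ℂ) := by
          rw [Complex.exp_neg]
          have h2 := Complex.exp_ne_zero ((Complex.arg (L v) : ℝ) * Complex.I)
          rw [inv_mul_eq_iff_eq_mul₀ h2, mul_comm]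
          exact hpol
        rw [h1, Complex.ofReal_im]
      · exfalso
        apply hv
        have h1 : L ((‖L v‖)⁻¹ • v) = Complex.exp ((Complex.arg (L v) : ℝ) * Complex.I) := by
          have h2 : (‖L v‖)⁻¹ • v = (((‖L v‖)⁻¹ : ℝ) : ℂ) • v := (Complex.coe_smul _ v).symm
          have h3 : (‖L v‖ : ℂ) ≠ 0 := by exact_mod_cast ht.ne'
          rw [h2, hsmul, Complex.ofReal_inv, inv_mul_eq_iff_eq_mul₀ h3]
          exact hpol
        exact hsc v _ ht (h _ hb _ h1)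
  refine measure_mono_null hsub (measure_union_null (ker_null L hadd hsmul hne) ?_)
  rw [measure_biUnion_null_iff hbad]
  intro φ _
  exact line_null L hadd hsmul hne φ

open MeasureTheory in
/-- perturbed parabolic points: for almost every direction all points outside the cones of the repelling directions
are attracted by sinks, at all scales above `τ.2 ^ (1/(q+1))` -/
theorem sect_null {d : ℕ} (hd : 2 ≤ d) {v0 : E d} (hcop : IsCoprime (pol v0.1) (pol v0.2))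
    (hdeg : max (pol v0.1).natDegree (pol v0.2).natDegree = d) {x : ℕ → ℂ} {n : ℕ}
    (hn : 0 < n) (ho : Orb v0 x n) (hx : x n = x 0) (hmul : trD v0 n (x 0) = 1)
    {N : ℕ} {a : ℂ} {k : ℂ → ℂ} (hN : 1 ≤ N) (ha : a ≠ 0)
    (hnf : NF (fun u => it v0 n (x 0 + u) - x 0) k N a) :
    volume {v : E d | ¬ SectDir v0 (x 0) a N v} = 0 := by
  obtain ⟨p, m, hp, hm, hnpm, hxp, hinj⟩ := per_dec hn ho hx
  subst hnpm
  have hop : Orb v0 x p := fun j hj => ho j (lt_of_lt_of_le hj (Nat.le_mul_of_pos_right p hm))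
  have hLm : trD v0 p (x 0) ^ m = 1 := by
    rw [← trD_mul hop hxp]
    exact hmul
  have hcopn : ∀ᶠ w in 𝓝 v0, IsCoprime (pol w.1) (pol w.2) :=
    (cop_near hcop hdeg (by omega)).mono (fun _ h => h.1)
  by_cases hL : trD v0 p (x 0) = 1
  · obtain ⟨v1, hv1⟩ := tt0 hd hcop hdeg x hp hxp hop hinj hL
    have hm0 : (m : ℂ) ≠ 0 := by exact_mod_cast hm.ne'
    obtain ⟨bad, hbad, hgen⟩ := genV_rot (N := N) (κ := 0) (by omega) (by omega) ha
      (one_ne_zero : (1 : ℂ) ≠ 0)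
    refine dir_cover (fun v => XX v0 v (p * m) (x 0)) (fun v w => XX_add v0 v w (p * m) (x 0))
      (fun c v => XX_smul v0 v c (p * m) (x 0)) ⟨v1, ?_⟩ hbad (fun v t ht h => sect_scale ht h) ?_
    · show XX v0 v1 (p * m) (x 0) ≠ 0
      rw [XX_mul hop hxp hL]
      exact mul_ne_zero hm0 hv1
    · intro φ hφ v hv
      have hv' : XX v0 v (p * m) (x 0) = Complex.exp (φ * Complex.I) := hv
      have hβ' : XX v0 v (p * m) (x 0) ≠ 0 := by
        rw [hv']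
        exact Complex.exp_ne_zero _
      have hgen' : ∃ s0 c : ℂ, GenAt N 0 a (XX v0 v (p * m) (x 0)) s0 c := by
        rw [hv']
        have h1 := hgen φ hφ
        rwa [mul_one] at h1
      exact sect_zero hn hcopn ho hx hN ha hnf hβ' hgen'
  · have hL0 : trD v0 p (x 0) ≠ 0 := by
      intro h0
      rw [h0, zero_pow hm.ne'] at hLm
      exact zero_ne_one hLm
    have hM0 : (fun u => it v0 p (x 0 + u) - x 0) 0 = 0 := by
      show it v0 p (x 0 + 0) - x 0 = 0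
      rw [add_zero, orb_it hop _ le_rfl, hxp, sub_self]
    have hN2 : 2 ≤ N := by
      refine nf_comm hN ha hnf (g_an hop (x 0)) hM0 (g_der hop (x 0)) hL0 hL ?_
      refine Eventually.of_forall fun u => ?_
      show it v0 (p * m) (x 0 + (it v0 p (x 0 + u) - x 0)) - x 0 =
        it v0 p (x 0 + (it v0 (p * m) (x 0 + u) - x 0)) - x 0
      rw [add_sub_cancel, add_sub_cancel, ← Pool.Agent.H79.Par.it_add,
        ← Pool.Agent.H79.Par.it_add, add_comm (p * m) p]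
    obtain ⟨v1, hv1⟩ := tt1 hd hcop hdeg x hn hx ho hmul (trD_second ho hN2 hnf)
    obtain ⟨bad, hbad, hgen⟩ := genV_rot (N := N) (κ := 1) (by omega) (by omega) ha
      (one_ne_zero : (1 : ℂ) ≠ 0)
    refine dir_cover (fun v => deriv (XX v0 v (p * m)) (x 0)) (fun v w => deriv_XX_add ho v w)
      (fun c v => deriv_XX_smul v c) ⟨v1, hv1⟩ hbad (fun v t ht h => sect_scale ht h) ?_
    intro φ hφ v hv
    have hv' : deriv (XX v0 v (p * m)) (x 0) = Complex.exp (φ * Complex.I) := hv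
    have hβ' : deriv (XX v0 v (p * m)) (x 0) ≠ 0 := by
      rw [hv']
      exact Complex.exp_ne_zero _
    have hgen' : ∃ s0 c : ℂ, GenAt N 1 a (deriv (XX v0 v (p * m)) (x 0)) s0 c := by
      rw [hv']
      have h1 := hgen φ hφ
      rwa [mul_one] at h1
    exact sect_one hp hm hcopn ho hxp hx hL hN2 ha hnf hβ' hgen'

/-- a parabolic point has a normal form: no iterate of `v0` is the identity near it -/
theorem exists_nf {d : ℕ} (hd : 2 ≤ d) {v0 : E d} (hcop : IsCoprime (pol v0.1) (pol v0.2))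
    (hdeg : max (pol v0.1).natDegree (pol v0.2).natDegree = d) {x : ℕ → ℂ} {n : ℕ}
    (hn : 0 < n) (ho : Orb v0 x n) (hx : x n = x 0) (hmul : trD v0 n (x 0) = 1) :
    ∃ (N : ℕ) (a : ℂ) (k : ℂ → ℂ), 1 ≤ N ∧ a ≠ 0 ∧
      NF (fun u => it v0 n (x 0 + u) - x 0) k N a := by
  have hF0 : (fun u => it v0 n (x 0 + u) - x 0) 0 = 0 := by
    show it v0 n (x 0 + 0) - x 0 = 0
    rw [add_zero, orb_it ho _ le_rfl, hx, sub_self]
  have hF1 : HasDerivAt (fun u => it v0 n (x 0 + u) - x 0) 1 0 := by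
    have h1 := g_der ho (x 0)
    rwa [hmul] at h1
  refine normal_form (g_an ho (x 0)) hF0 hF1 ?_
  intro hid
  have hc : {z : ℂ | ∃ n : ℕ, 0 < n ∧ (Rf v0)^[n] (z : OnePoint ℂ) = (z : OnePoint ℂ)}.Countable :=
    (per_all_countable hcop (by rw [hdeg]; exact hd)).preimage_of_injOn
      (f := ((↑) : ℂ → OnePoint ℂ)) (OnePoint.coe_injective.injOn)
  have hadd : Tendsto (fun z : ℂ => z - x 0) (𝓝 (x 0)) (𝓝 0) := by
    have h1 : Continuous (fun z : ℂ => z - x 0) := by fun_prop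
    have h2 := h1.tendsto (x 0)
    rwa [sub_self] at h2
  have h1 : ∀ᶠ z in 𝓝 (x 0), it v0 n z = z := by
    filter_upwards [hadd.eventually hid] with z hz
    rw [add_sub_cancel] at hz
    exact sub_left_injective hz
  have h2 : ∀ᶠ z in 𝓝 (x 0), Orb v0 (fun j => it v0 j z) n := orb_shift ho
  have h3 : {z : ℂ | ∃ n : ℕ, 0 < n ∧ (Rf v0)^[n] (z : OnePoint ℂ) = (z : OnePoint ℂ)} ∈
      𝓝 (x 0) := by
    filter_upwards [h1, h2] with z hz hz2
    refine ⟨n, hn, ?_⟩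
    rw [rat_it fun i hi => (hz2 i hi).1, hz]
  obtain ⟨r, hr, hball⟩ := Metric.mem_nhds_iff.1 h3
  have h4 : (ball (x 0) r).Countable := hc.mono hball
  have h5 := h4.measure_zero MeasureTheory.volume
  exact (Metric.measure_ball_pos MeasureTheory.volume (x 0) hr).ne' h5

end Pool.Agent.H79.PB
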